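import Pool.Agent.HomZ.SubDef
import Pool.Agent.HomV.Cfi

/-!
# The graphs are bipartite (helper32)
-/

set_option autoImplicit false

namespace Pool.Agent.HomQ

open Finset Classical Pool.Agent.HomV
open Pool.Agent.HomT (GU gX dr Ex)
open Pool.Agent.HomZ (cellG CEx SW sub)

/-- a colouring with two colours -/
def Bip {V : Type} (G : SimpleGraph V) : Prop := ∃ c : V → ZMod 2, ∀ a b, G.Adj a b → c a ≠ c b

theorem Bip.isBipartite {V : Type} {G : SimpleGraph V} (h : Bip G) : G.IsBipartite := by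
  obtain ⟨c, hc⟩ := h
  have h1 := (SimpleGraph.Coloring.mk c fun {a b} hab => hc a b hab : G.Coloring (ZMod 2)).colorable
  rwa [ZMod.card] at h1

theorem cfi_bip {U : Type} [Fintype U] {X : SimpleGraph U} (h : Bip X) (c : U → ZMod 2) :
    Bip (cfi X c) := by
  obtain ⟨χ, hχ⟩ := h
  exact ⟨fun p => χ p.1.1, fun a b hab => hχ _ _ hab.1⟩

/-- the type of a vertex of the affine plane -/
def tp {p : ℕ} : AffU p → ZMod 2
  | Sum.inl _ => 0
  | Sum.inr _ => 1

theorem tp_ne {p : ℕ} {a b : AffU p} (h : (affX p).Adj a b) : tp a ≠ tp b := by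
  rcases a with a | a <;> rcases b with b | b
  · exact absurd h (affX_adj_ll _ _)
  · exact zero_ne_one
  · exact one_ne_zero
  · exact absurd h (affX_adj_rr _ _)

theorem cellG_bip {W : Type} {Γ : SimpleGraph W} {p : ℕ} {ix : W → ZMod p} (h : Bip Γ) :
    Bip (cellG Γ ix) := by
  obtain ⟨χ, hχ⟩ := h
  refine ⟨fun a => χ a.1 + tp a.2, ?_⟩
  rintro a b (hab | ⟨hab, x, h1, h2⟩)
  · simp only
    rw [hab.1]
    exact fun h => tp_ne hab.2 (add_left_cancel h)
  · simp only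
    rw [h1, h2]
    exact fun h => hχ _ _ hab (add_right_cancel h)

theorem sub_bip {U₀ : Type} {B : SimpleGraph U₀} {L : ℕ} (h : Bip B) : Bip (sub B L) := by
  obtain ⟨χ, hχ⟩ := h
  have hne : ∀ x : ZMod 2, x + 1 ≠ x := by decide
  have hne2 : ∀ (n : ℕ), ((n + 1 : ℕ) : ZMod 2) = (n : ZMod 2) + 1 := fun n => by push_cast; rfl
  refine ⟨fun u => match u with
    | Sum.inl i => χ i
    | Sum.inr (q, s) => χ q.1.1 + ((s.val + 1 : ℕ) : ZMod 2), ?_⟩
  rintro (i | ⟨q, s⟩) (j | ⟨q', s'⟩) h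
  · exact h.elim
  · obtain ⟨h1, h2⟩ := h
    simp only
    rw [h2, ← h1]
    simp
  · obtain ⟨h1, h2⟩ := h
    simp only
    rw [h2, ← h1]
    simp
  · simp only
    rcases h with ⟨rfl, h | h⟩ | ⟨h1, h2, h3⟩
    · rw [← h, hne2 (s.val + 1), ← add_assoc]
      exact (hne _).symm
    · rw [← h, hne2 (s'.val + 1), ← add_assoc]
      exact hne _
    · rw [h2, h3, h1]
      intro h
      exact hχ _ _ q.2 (add_right_cancel h)

theorem gX_bip {N p : ℕ} [Fact (1 < N)] (hN : 2 ∣ N) : Bip (gX N p) := by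
  obtain ⟨φ⟩ : Nonempty (ZMod N →+* ZMod 2) := ⟨ZMod.castHom hN (ZMod 2)⟩
  refine ⟨fun a => φ a.1.1 + φ a.1.2 + tp a.2, ?_⟩
  rintro a b (hab | ⟨c, x, h1, rfl⟩)
  · simp only
    rw [hab.1]
    exact fun h => tp_ne hab.2 (add_left_cancel h)
  · simp only
    rw [h1]
    intro h
    have h2 : φ a.1.1 + φ a.1.2 = φ (a.1 + dr N c).1 + φ (a.1 + dr N c).2 := add_right_cancel h
    have h3 : ∀ x y : ZMod 2, x + y ≠ (x + 1) + y := by decide
    have h4 : ∀ x y : ZMod 2, x + y ≠ x + (y + 1) := by decide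
    have h5 : ∀ x y : ZMod 2, x + y ≠ (x + -1) + y := by decide
    have h6 : ∀ x y : ZMod 2, x + y ≠ x + (y + -1) := by decide
    have h7 : (a.1 + dr N c).1 = a.1.1 + (dr N c).1 := rfl
    have h8 : (a.1 + dr N c).2 = a.1.2 + (dr N c).2 := rfl
    rw [h7, h8, map_add, map_add] at h2
    fin_cases c
    · exact h3 (φ a.1.1) (φ a.1.2) (by simpa [dr] using h2)
    · exact h5 (φ a.1.1) (φ a.1.2) (by simpa [dr] using h2)
    · exact h4 (φ a.1.1) (φ a.1.2) (by simpa [dr] using h2)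
    · exact h6 (φ a.1.1) (φ a.1.2) (by simpa [dr] using h2)

end Pool.Agent.HomQ
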