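import Pool.Agent.HomQ.RDef

/-!
# The regular graph of cells is good (helper98)

As `cellG_good` (HomZ/Cell). Every vertex `a` has exactly one edge which is not in its cell (`RExt` or `RVer`, according
to `Pt`; `unique`); two such edges with the same end are equal. 4-cycle `RExt, RInt, RExt, RInt`: two adjacent points;
`RVer, RInt, RVer, RInt`: a point `P` and a line `l` incident for both shifts; other types: different cells. `conn`:
`cell_const` for every copy of a cell (with the bijection `tr e`, inverse `P ↦ (P.1, P.2 + …)`), a line `inr l` with both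
copies outside of `S` joins the two copies (`RVer`; a line has no `Pt`), ports (`cell_port`) join the cells.
-/

set_option autoImplicit false

namespace Pool.Agent.HomQ

open Finset Classical Pool.Agent.HomV Pool.Agent.HomW
open Pool.Agent.HomZ (CEx ConnP)
open Pool.Agent.HomT (affX_good cell_const no_pp)

variable {W : Type} [Fintype W] {Γ : SimpleGraph W} {p : ℕ} [NeZero p] {ix : W → ZMod p}

/-- the inverse of the shift -/
def utr {p : ℕ} (e : Bool) : AffU p → AffU p
  | Sum.inl P => Sum.inl (P.1, P.2 + if e then 1 else 0)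
  | Sum.inr l => Sum.inr l

theorem tr_utr {p : ℕ} (e : Bool) (a : AffU p) : tr e (utr e a) = a := by
  rcases a with ⟨x, y⟩ | l
  · show (Sum.inl (x, y + (if e then 1 else 0) - if e then 1 else 0) : AffU p) = Sum.inl (x, y)
    rw [add_sub_cancel_right]
  · rfl

theorem utr_tr {p : ℕ} (e : Bool) (a : AffU p) : utr e (tr e a) = a := by
  rcases a with ⟨x, y⟩ | l
  · show (Sum.inl (x, y - (if e then 1 else 0) + if e then 1 else 0) : AffU p) = Sum.inl (x, y)
    rw [sub_add_cancel]
  · rfl

theorem tr_inj {p : ℕ} (e : Bool) {a b : AffU p} (h : tr e a = tr e b) : a = b := by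
  rw [← utr_tr e a, h, utr_tr]

theorem utr_inj {p : ℕ} (e : Bool) {a b : AffU p} (h : utr e a = utr e b) : a = b := by
  rw [← tr_utr e a, h, tr_utr]

/-- the edges which are not in a copy of a cell -/
def NEd {W : Type} (Γ : SimpleGraph W) {p : ℕ} (ix : W → ZMod p) (a b : RU W p) : Prop :=
  RExt Γ ix a b ∨ RVer Γ ix a b

omit [Fintype W] [NeZero p] in
theorem NEd.symm {a b : RU W p} (h : NEd Γ ix a b) : NEd Γ ix b a := by
  rcases h with h | h
  · exact Or.inl ⟨h.1.symm, Pool.Agent.HomZ.CEx.symm h.2⟩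
  · refine Or.inr ⟨h.1.symm, h.2.1.symm, h.2.2.1.symm, ?_⟩
    rw [← h.1, ← h.2.1]
    exact h.2.2.2

omit [Fintype W] [NeZero p] in
theorem RExt.pt {a b : RU W p} (h : RExt Γ ix a b) : Pt Γ ix a.1 a.2.1 := by
  obtain ⟨-, h2, x, h3, -⟩ := h
  exact ⟨b.1, x, h2, h3⟩

omit [Fintype W] [NeZero p] in
theorem NEd.unique (hix : Function.Injective ix) {a b b' : RU W p} (h : NEd Γ ix a b)
    (h' : NEd Γ ix a b') : b = b' := by
  rcases h with h | h
  · rcases h' with h' | h'
    · have h1 := Pool.Agent.HomZ.CEx.unique hix h.2 h'.2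
      obtain ⟨h2, h3⟩ := Prod.ext_iff.1 h1
      refine Prod.ext h2 (Prod.ext h3 ?_)
      exact h.1.symm.trans h'.1
    · exact absurd h.pt h'.2.2.2
  · rcases h' with h' | h'
    · exact absurd h'.pt h.2.2.2
    · refine Prod.ext (h.1.symm.trans h'.1) (Prod.ext (h.2.1.symm.trans h'.2.1) ?_)
      have h1 := h.2.2.1
      have h2 := h'.2.2.1
      revert h1 h2
      generalize a.2.2 = e
      generalize b.2.2 = f
      generalize b'.2.2 = g
      revert e f g
      decide

omit [Fintype W] [NeZero p] in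
theorem NEd.ne {a b : RU W p} (h : NEd Γ ix a b) (h1 : a.1 = b.1) (h2 : a.2.2 = b.2.2) :
    False := by
  rcases h with h | h
  · exact h.2.ne h1
  · exact h.2.2.1 h2

omit [Fintype W] [NeZero p] in
theorem rg_tri (hix : Function.Injective ix) {a b c : RU W p} (h1 : NEd Γ ix a b)
    (h2 : (rg Γ ix).Adj b c) (h3 : (rg Γ ix).Adj c a) : False := by
  rcases h2 with h2 | h2
  · rcases h3 with h3 | h3
    · exact h1.ne (h3.1.symm.trans h2.1.symm) (h3.2.1.symm.trans h2.2.1.symm)
    · have h4 := h1.unique hix (NEd.symm h3)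
      rw [h4] at h2
      exact h2.2.2.ne rfl
  · have h4 := h1.symm.unique hix h2
    rw [h4] at h3
    exact h3.ne rfl

omit [Fintype W] [NeZero p] in
theorem tr_point (e : Bool) {a : AffU p} (h : ∃ P, a = Sum.inl P) : ∃ P, tr e a = Sum.inl P := by
  obtain ⟨P, rfl⟩ := h
  exact ⟨_, rfl⟩

omit [Fintype W] [NeZero p] in
theorem two_shifts (h01 : (1 : ZMod p) ≠ 0) {e e' : Bool} (he : e ≠ e') {A C : AffU p}
    (h1 : (affX p).Adj (tr e A) (tr e C)) (h2 : (affX p).Adj (tr e' A) (tr e' C)) : False := by
  have key : ∀ P l : ZMod p × ZMod p, P.2 - (if e then 1 else 0) = l.1 * P.1 + l.2 →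
      P.2 - (if e' then 1 else 0) = l.1 * P.1 + l.2 → False := by
    intro P l h1 h2
    have h3 : (if e then (1 : ZMod p) else 0) = if e' then 1 else 0 :=
      sub_right_injective (h1.trans h2.symm)
    rcases e with _ | _ <;> rcases e' with _ | _
    · exact he rfl
    · exact h01 (by simpa using h3.symm)
    · exact h01 (by simpa using h3)
    · exact he rfl
  rcases A with P | l <;> rcases C with P' | l'
  · exact h1
  · exact key P l' h1 h2
  · exact key P' l h1 h2
  · exact h1

omit [Fintype W] [NeZero p] in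
theorem rg_c4 (h01 : (1 : ZMod p) ≠ 0) (hix : Function.Injective ix) {a b c d : RU W p}
    (h1 : NEd Γ ix a b) (h2 : (rg Γ ix).Adj b c) (h3 : (rg Γ ix).Adj c d)
    (h4 : (rg Γ ix).Adj d a) : a = c ∨ b = d := by
  rcases h2 with h2 | h2
  · rcases h4 with h4 | h4
    · rcases h3 with h3 | h3
      · exact (h1.ne (h4.1.symm.trans (h3.1.symm.trans h2.1.symm))
          (h4.2.1.symm.trans (h3.2.1.symm.trans h2.2.1.symm))).elim
      · exfalso
        rcases h1 with h1 | h1
        · rcases h3 with h3 | h3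
          · have h5 := h2.2.2
            exact no_pp h5 (tr_point _ (Pool.Agent.HomZ.CEx.symm h1.2).point).choose_spec
              (tr_point _ h3.2.point).choose_spec
          · exact h1.2.ne (h4.1.symm.trans (h3.1.symm.trans h2.1.symm))
        · rcases h3 with h3 | h3
          · exact h3.2.ne (h2.1.symm.trans (h1.1.symm.trans h4.1.symm))
          · have h5 := h2.2.2
            have h6 := h4.2.2.symm
            rw [← h2.2.1] at h5
            rw [h4.2.1, ← h3.2.1, h1.2.1] at h6
            exact two_shifts h01 h1.2.2.1.symm h5 h6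
    · exact Or.inr (h1.unique hix (NEd.symm h4))
  · exact Or.inl (h1.symm.unique hix h2)

omit [Fintype W] [NeZero p] in
theorem avoid_two [Fact p.Prime] {α : Type} (S : Finset α) (hS : 2 * S.card < p)
    (f g : ZMod p → α) (hf : Function.Injective f) (hg : Function.Injective g) :
    ∃ x : ZMod p, f x ∉ S ∧ g x ∉ S := by
  by_contra hno
  push Not at hno
  set A : Finset (ZMod p) := univ.filter (fun x => f x ∈ S) with hA
  set B : Finset (ZMod p) := univ.filter (fun x => g x ∈ S) with hB
  have hcov : (univ : Finset (ZMod p)) ⊆ A ∪ B := by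
    intro x _
    rw [Finset.mem_union]
    by_cases h2 : f x ∈ S
    · exact Or.inl (by rw [hA, Finset.mem_filter]; exact ⟨Finset.mem_univ _, h2⟩)
    · exact Or.inr (by rw [hB, Finset.mem_filter]; exact ⟨Finset.mem_univ _, hno x h2⟩)
  have hAc : A.card ≤ S.card := Finset.card_le_card_of_injOn f
    (fun m hm => Finset.mem_coe.2 (Finset.mem_filter.1 (Finset.mem_coe.1 hm)).2)
    (fun _ _ _ _ h => hf h)
  have hBc : B.card ≤ S.card := Finset.card_le_card_of_injOn g
    (fun m hm => Finset.mem_coe.2 (Finset.mem_filter.1 (Finset.mem_coe.1 hm)).2)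
    (fun _ _ _ _ h => hg h)
  have h1 := Finset.card_le_card hcov
  rw [Finset.card_univ, ZMod.card] at h1
  have h3 := Finset.card_union_le A B
  omega

theorem rg_good (Q : ℕ) [Fact p.Prime] (hp : 5 * Q + 10 ≤ p) (hix : Function.Injective ix)
    {Y : Finset W} (hne : Y.Nonempty) (hc : ConnP Γ (Y : Set W)) :
    Good (rg Γ ix) (rcells p Y) Q := by
  have h01 : (1 : ZMod p) ≠ 0 := one_ne_zero
  refine ⟨?_, ?_, ?_, ?_, ?_⟩
  · intro a b c h1 h2 h3
    rcases id h1 with h1' | h1'
    · rcases id h2 with h2' | h2'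
      · rcases id h3 with h3' | h3'
        · exact (affX_good Q p hp).tri _ _ _ h1'.2.2 h2'.2.2 h3'.2.2
        · exact rg_tri hix h3' h1 h2
      · exact rg_tri hix h2' h3 h1
    · exact rg_tri hix h1' h2 h3
  · intro a b c d h1 h2 h3 h4
    rcases id h1 with h1' | h1'
    · rcases id h2 with h2' | h2'
      · rcases id h3 with h3' | h3'
        · rcases id h4 with h4' | h4'
          · rcases (affX_good Q p hp).c4 _ _ _ _ h1'.2.2 h2'.2.2 h3'.2.2 h4'.2.2 with h | h
            · have h5 : a.2.2 = c.2.2 := h1'.2.1.trans h2'.2.1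
              rw [← h5] at h
              exact Or.inl (Prod.ext (h1'.1.trans h2'.1) (Prod.ext (tr_inj _ h) h5))
            · have h5 : b.2.2 = d.2.2 := h2'.2.1.trans h3'.2.1
              rw [← h5] at h
              exact Or.inr (Prod.ext (h2'.1.trans h3'.1) (Prod.ext (tr_inj _ h) h5))
          · rcases rg_c4 h01 hix h4' h1 h2 h3 with h | h
            · exact Or.inr h.symm
            · exact Or.inl h
        · rcases rg_c4 h01 hix h3' h4 h1 h2 with h | h
          · exact Or.inl h.symm
          · exact Or.inr h.symm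
      · rcases rg_c4 h01 hix h2' h3 h4 h1 with h | h
        · exact Or.inr h
        · exact Or.inl h.symm
    · exact rg_c4 h01 hix h1' h2 h3 h4
  · intro i hi
    have h1 := (affX_good Q p hp).deg (tr i.2.2 i.2.1) (Finset.mem_univ _)
    refine h1.trans (Finset.card_le_card_of_injOn (fun j => (i.1, utr i.2.2 j, i.2.2)) ?_ ?_)
    · intro j hj
      have hj' := (Finset.mem_filter.1 (Finset.mem_coe.1 hj)).2
      have hr : ((i.1, utr i.2.2 j, i.2.2) : RU W p) ∈ rcells p Y := by
        rw [mem_rcells] at hi ⊢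
        exact hi
      refine Finset.mem_coe.2 (Finset.mem_filter.2 ⟨hr, Or.inl ⟨rfl, rfl, ?_⟩⟩)
      show (affX p).Adj (tr i.2.2 i.2.1) (tr i.2.2 (utr i.2.2 j))
      rw [tr_utr]
      exact hj'
    · intro a _ b _ h
      exact utr_inj _ (congrArg (fun x : RU W p => x.2.1) h)
  · intro S hS T hT hTne hRne
    by_contra hcon
    push Not at hcon
    have key : ∀ i j, i ∉ S → j ∉ S → j ∈ rcells p Y → (rg Γ ix).Adj i j → i ∈ T →
        j ∈ T := by
      intro i j _ hj hjr hij hi
      by_contra hjT
      exact hcon i hi j (by simp [hj, hjT, hjr]) hij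
    have side : ∀ i j, i ∉ S → j ∉ S → i ∈ rcells p Y → j ∈ rcells p Y →
        (rg Γ ix).Adj i j → (i ∈ T ↔ j ∈ T) :=
      fun i j hi hj hir hjr hij => ⟨key i j hi hj hjr hij, key j i hj hi hir hij.symm⟩
    -- in a copy of a cell
    have copy : ∀ (g : W) (e : Bool) (a b : AffU p), g ∈ Y →
        (g, a, e) ∉ S → (g, b, e) ∉ S → ((g, a, e) ∈ T ↔ (g, b, e) ∈ T) := by
      intro g e a b hg ha hb
      have hSg : (univ.filter fun a : AffU p => ((g, utr e a, e) : RU W p) ∈ S).card < Q := by
        refine lt_of_le_of_lt (Finset.card_le_card_of_injOn (fun j => (g, utr e j, e)) ?_ ?_) hS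
        · intro j hj
          exact Finset.mem_coe.2 (Finset.mem_filter.1 (Finset.mem_coe.1 hj)).2
        · intro a _ b _ h
          exact utr_inj _ (congrArg (fun x : RU W p => x.2.1) h)
      have h := cell_const Q p hp
        (univ.filter fun a : AffU p => ((g, utr e a, e) : RU W p) ∈ S) hSg
        (fun a => (g, utr e a, e) ∈ T) (fun i j hi hj hij => ?_) (tr e a) (tr e b) ?_ ?_
      · simp only [utr_tr] at h
        exact h
      · refine side _ _ (fun h => hi ?_) (fun h => hj ?_) (mem_rcells.2 hg) (mem_rcells.2 hg)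
          (Or.inl ⟨rfl, rfl, ?_⟩)
        · exact Finset.mem_filter.2 ⟨Finset.mem_univ _, h⟩
        · exact Finset.mem_filter.2 ⟨Finset.mem_univ _, h⟩
        · show (affX p).Adj (tr e (utr e i)) (tr e (utr e j))
          rw [tr_utr, tr_utr]
          exact hij
      · intro h
        have h' := (Finset.mem_filter.1 h).2
        rw [utr_tr] at h'
        exact ha h'
      · intro h
        have h' := (Finset.mem_filter.1 h).2
        rw [utr_tr] at h'
        exact hb h'
    -- in a cell
    have cell : ∀ (g : W) (a b : AffU p × Bool), g ∈ Y →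
        (g, a) ∉ S → (g, b) ∉ S → ((g, a) ∈ T ↔ (g, b) ∈ T) := by
      have h2 : ∀ (g : W) (a b : AffU p), g ∈ Y → (g, a, false) ∉ S → (g, b, true) ∉ S →
          ((g, a, false) ∈ T ↔ (g, b, true) ∈ T) := by
        intro g a b hg ha hb
        obtain ⟨m, hm1, hm2⟩ := avoid_two S (by omega)
          (fun m : ZMod p => ((g, Sum.inr (m, 0), false) : RU W p))
          (fun m : ZMod p => ((g, Sum.inr (m, 0), true) : RU W p))
          (fun m m' h => congrArg Prod.fst (Sum.inr.inj (congrArg (fun x : RU W p => x.2.1) h)))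
          (fun m m' h => congrArg Prod.fst (Sum.inr.inj (congrArg (fun x : RU W p => x.2.1) h)))
        rw [copy g false a (Sum.inr (m, 0)) hg ha hm1, copy g true b (Sum.inr (m, 0)) hg hb hm2]
        refine side _ _ hm1 hm2 (mem_rcells.2 hg) (mem_rcells.2 hg)
          (Or.inr (Or.inr ⟨rfl, rfl, by simp, ?_⟩))
        rintro ⟨v, x, -, h⟩
        exact absurd h (by simp)
      rintro g ⟨a, _ | _⟩ ⟨b, _ | _⟩ hg ha hb
      · exact copy g false a b hg ha hb
      · exact h2 g a b hg ha hb
      · exact (h2 g b a hg hb ha).symm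
      · exact copy g true a b hg ha hb
    have hall := hc (fun g => ∀ a : AffU p × Bool, (g, a) ∉ S → (g, a) ∈ T) (by
      intro u hu v hv huv
      obtain ⟨x, hx1, hx2⟩ := avoid_two S (by omega)
          (fun x : ZMod p => ((u, Sum.inl (x, ix v), false) : RU W p))
          (fun x : ZMod p => ((v, Sum.inl (x, ix u), false) : RU W p))
          (fun m m' h => congrArg Prod.fst (Sum.inl.inj (congrArg (fun x : RU W p => x.2.1) h)))
          (fun m m' h => congrArg Prod.fst (Sum.inl.inj (congrArg (fun x : RU W p => x.2.1) h)))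
      have hs := side _ _ hx1 hx2 (mem_rcells.2 hu) (mem_rcells.2 hv)
        (Or.inr (Or.inl ⟨rfl, huv, x, rfl, rfl⟩))
      constructor
      · intro h a ha
        exact (cell _ _ _ hv hx2 ha).1 (hs.1 (h _ hx1))
      · intro h a ha
        exact (cell _ _ _ hu hx1 ha).1 (hs.2 (h _ hx2)))
    obtain ⟨i, hi⟩ := hTne
    obtain ⟨j, hj⟩ := hRne
    have hi' : i ∈ rcells p Y ∧ i ∉ S := by simpa using hT hi
    have hj' : (j ∈ rcells p Y ∧ j ∉ S) ∧ j ∉ T := by simpa using hj
    have hir := mem_rcells.1 hi'.1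
    have hjr := mem_rcells.1 hj'.1.1
    have h1 : ∀ a : AffU p × Bool, (i.1, a) ∉ S → (i.1, a) ∈ T :=
      fun a ha => (cell i.1 i.2 a hir hi'.2 ha).1 hi
    exact hj'.2 ((hall i.1 hir j.1 hjr).1 h1 j.2 hj'.1.2)
  · obtain ⟨u, hu⟩ := hne
    exact ⟨(u, Sum.inl (0, 0), false), mem_rcells.2 hu⟩

end Pool.Agent.HomQ
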