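import Pool.Agent.HomQ.RDef

/-!
# The regular graph of cells is regular (helper27)

In the cell: the lines `(m, …)` through a point, one for every `m`; the points `(x, …)` of a line, one for every `x`: `p`
neighbours. One more neighbour outside: `RExt` if `Pt` (`v` is unique by `hix`), `RVer` otherwise.
-/

set_option autoImplicit false

namespace Pool.Agent.HomQ

open Finset Classical Pool.Agent.HomV

variable {W : Type} [Fintype W] {Γ : SimpleGraph W} {p : ℕ} [NeZero p] {ix : W → ZMod p}

/-- the neighbours in the cell -/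
private def nb (u : W) (α : AffU p) (e : Bool) (m : ZMod p) : RU W p :=
  match α with
  | Sum.inl P => (u, Sum.inr (m, P.2 - (if e then 1 else 0) - m * P.1), e)
  | Sum.inr l => (u, Sum.inl (m, l.1 * m + l.2 + (if e then 1 else 0)), e)

omit [Fintype W] [NeZero p] in
private theorem nb_inj (u : W) (α : AffU p) (e : Bool) : Function.Injective (nb u α e) := by
  intro m m' h
  rcases α with P | l
  · have h1 := congrArg (fun b : RU W p => b.2.1) h
    have h2 : (Sum.inr (m, P.2 - (if e then 1 else 0) - m * P.1) : AffU p) =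
        Sum.inr (m', P.2 - (if e then 1 else 0) - m' * P.1) := h1
    exact congrArg Prod.fst (Sum.inr.inj h2)
  · have h1 := congrArg (fun b : RU W p => b.2.1) h
    have h2 : (Sum.inl (m, l.1 * m + l.2 + (if e then 1 else 0)) : AffU p) =
        Sum.inl (m', l.1 * m' + l.2 + (if e then 1 else 0)) := h1
    exact congrArg Prod.fst (Sum.inl.inj h2)

omit [Fintype W] [NeZero p] in
private theorem nb_fst (u : W) (α : AffU p) (e : Bool) (m : ZMod p) : (nb u α e m).1 = u := by
  rcases α with P | l <;> rfl

omit [Fintype W] [NeZero p] in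
private theorem nb_snd (u : W) (α : AffU p) (e : Bool) (m : ZMod p) : (nb u α e m).2.2 = e := by
  rcases α with P | l <;> rfl

omit [Fintype W] [NeZero p] in
private theorem nb_iff (u : W) (α : AffU p) (e : Bool) (b : RU W p) :
    RInt (u, α, e) b ↔ ∃ m, nb u α e m = b := by
  obtain ⟨v, β, e'⟩ := b
  constructor
  · rintro ⟨h1, h2, h3⟩
    have h1' : u = v := h1
    have h2' : e = e' := h2
    subst h1' h2'
    rcases α with P | l <;> rcases β with P' | l'
    · exact absurd h3 (affX_adj_ll _ _)
    · have h4 : P.2 - (if e then 1 else 0) = l'.1 * P.1 + l'.2 := h3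
      refine ⟨l'.1, ?_⟩
      show ((u, Sum.inr (l'.1, P.2 - (if e then 1 else 0) - l'.1 * P.1), e) : RU W p) =
        (u, Sum.inr l', e)
      have h5 : P.2 - (if e then 1 else 0) - l'.1 * P.1 = l'.2 := by
        rw [h4]
        ring
      rw [h5]
    · have h4 : P'.2 - (if e then 1 else 0) = l.1 * P'.1 + l.2 := h3
      refine ⟨P'.1, ?_⟩
      show ((u, Sum.inl (P'.1, l.1 * P'.1 + l.2 + (if e then 1 else 0)), e) : RU W p) =
        (u, Sum.inl P', e)
      have h5 : l.1 * P'.1 + l.2 + (if e then 1 else 0) = P'.2 := by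
        rw [← h4]
        ring
      rw [h5]
    · exact absurd h3 (affX_adj_rr _ _)
  · rintro ⟨m, hm⟩
    rcases α with P | l
    · have h0 : ((u, Sum.inr (m, P.2 - (if e then 1 else 0) - m * P.1), e) : RU W p) =
        (v, β, e') := hm
      rw [← h0]
      refine ⟨rfl, rfl, ?_⟩
      show P.2 - (if e then 1 else 0) = m * P.1 + (P.2 - (if e then 1 else 0) - m * P.1)
      ring
    · have h0 : ((u, Sum.inl (m, l.1 * m + l.2 + (if e then 1 else 0)), e) : RU W p) =
        (v, β, e') := hm
      rw [← h0]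
      refine ⟨rfl, rfl, ?_⟩
      show l.1 * m + l.2 + (if e then 1 else 0) - (if e then 1 else 0) = l.1 * m + l.2
      ring

/-- the neighbour outside -/
private theorem out_iff (hix : Function.Injective ix) (u : W) (α : AffU p) (e : Bool) :
    ∃ g : RU W p, (g.1 ≠ u ∨ g.2.2 ≠ e) ∧
      ∀ b, (RExt Γ ix (u, α, e) b ∨ RVer Γ ix (u, α, e) b) ↔ b = g := by
  by_cases hP : Pt Γ ix u α
  · obtain ⟨v, x, huv, hα⟩ := hP
    refine ⟨(v, Sum.inl (x, ix u), e), Or.inl huv.ne', ?_⟩
    rintro ⟨w, β, e'⟩
    constructor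
    · rintro (h | h)
      · obtain ⟨h1, h2, x', h3, h4⟩ := h
        have h1' : e = e' := h1
        have h3' : α = Sum.inl (x', ix w) := h3
        have h4' : β = Sum.inl (x', ix u) := h4
        rw [hα] at h3'
        have h5 := Sum.inl.inj h3'
        have h6 : x = x' := congrArg Prod.fst h5
        have h7 : v = w := hix (congrArg Prod.snd h5)
        rw [← h1', ← h7, h4', ← h6]
      · exact absurd ⟨v, x, huv, hα⟩ h.2.2.2
    · intro h
      rw [h]
      exact Or.inl ⟨rfl, huv, x, hα, rfl⟩
  · refine ⟨(u, α, !e), Or.inr (by simp), ?_⟩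
    rintro ⟨w, β, e'⟩
    constructor
    · rintro (h | h)
      · obtain ⟨h1, h2, x', h3, h4⟩ := h
        exact absurd ⟨w, x', h2, h3⟩ hP
      · obtain ⟨h1, h2, h3, -⟩ := h
        have h1' : u = w := h1
        have h2' : α = β := h2
        have h3' : e ≠ e' := h3
        rw [← h1', ← h2']
        have h4 : e' = !e := by
          rcases e with _ | _ <;> rcases e' with _ | _ <;> simp_all
        rw [h4]
    · intro h
      rw [h]
      exact Or.inr ⟨rfl, rfl, by simp, hP⟩

theorem rg_deg [Fact p.Prime] (hix : Function.Injective ix) (a : RU W p) :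
    (univ.filter fun b => (rg Γ ix).Adj a b).card = p + 1 := by
  obtain ⟨u, α, e⟩ := a
  obtain ⟨g, hg, hb⟩ := out_iff (Γ := Γ) hix u α e
  have h1 : (univ.filter fun b => (rg Γ ix).Adj (u, α, e) b) =
      insert g (univ.image (nb u α e)) := by
    ext b
    rw [Finset.mem_filter, Finset.mem_insert, Finset.mem_image]
    have h2 : (rg Γ ix).Adj (u, α, e) b ↔
        (RInt (u, α, e) b ∨ (RExt Γ ix (u, α, e) b ∨ RVer Γ ix (u, α, e) b)) := Iff.rfl
    rw [h2, hb, nb_iff]
    constructor
    · rintro ⟨-, ⟨m, hm⟩ | h⟩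
      · exact Or.inr ⟨m, Finset.mem_univ _, hm⟩
      · exact Or.inl h
    · rintro (h | ⟨m, -, hm⟩)
      · exact ⟨Finset.mem_univ _, Or.inr h⟩
      · exact ⟨Finset.mem_univ _, Or.inl ⟨m, hm⟩⟩
  rw [h1, Finset.card_insert_of_notMem, Finset.card_image_of_injective _ (nb_inj u α e),
    Finset.card_univ, ZMod.card]
  rw [Finset.mem_image]
  rintro ⟨m, -, hm⟩
  rcases hg with h | h
  · exact h (by rw [← hm, nb_fst])
  · exact h (by rw [← hm, nb_snd])

end Pool.Agent.HomQ
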