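import Pool.Agent.HomV.Cfi

/-!
# The CFI graph of a regular graph is regular (helper20)

The neighbours of `(i, x)` over `j` (`X.Adj i j`): the `y` supported on the neighbours of `j` with `∑ y = c j` and
`y i = x j`: `2 ^ (D - 2)`.
-/

set_option autoImplicit false

namespace Pool.Agent.HomQ

open Finset Classical Pool.Agent.HomV

/-- functions supported on `S` with a given value at `i` and a given sum -/
private theorem count_fun {U : Type} [Fintype U] (S : Finset U) (hS : 2 ≤ S.card) {i : U}
    (hi : i ∈ S) (a c : ZMod 2) :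
    ((univ : Finset (U → ZMod 2)).filter fun y => (∀ j, j ∉ S → y j = 0) ∧ y i = a ∧
      ∑ j, y j = c).card = 2 ^ (S.card - 2) := by
  have h1 : (S.erase i).Nonempty := by
    rw [← Finset.card_pos, Finset.card_erase_of_mem hi]
    omega
  obtain ⟨l, hl⟩ := h1
  have hli : l ≠ i := (Finset.mem_erase.mp hl).1
  have hlS : l ∈ S := (Finset.mem_erase.mp hl).2
  have hT : ((S.erase i).erase l).card = S.card - 2 := by
    rw [Finset.card_erase_of_mem hl, Finset.card_erase_of_mem hi]
    omega
  let A : U → Finset (ZMod 2) := fun j =>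
    if j ∈ (S.erase i).erase l then univ else if j = i then {a} else {0}
  have hA : (Fintype.piFinset A).card = 2 ^ (S.card - 2) := by
    rw [Fintype.card_piFinset, ← hT]
    have h2 : ∀ j, (A j).card = if j ∈ (S.erase i).erase l then 2 else 1 := by
      intro j
      by_cases h : j ∈ (S.erase i).erase l
      · have h3 : A j = univ := if_pos h
        rw [h3, if_pos h]
        rfl
      · have h3 : A j = if j = i then {a} else {0} := if_neg h
        rw [h3, if_neg h]
        split_ifs
        · exact Finset.card_singleton _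
        · exact Finset.card_singleton _
    rw [Finset.prod_congr rfl fun j _ => h2 j, Finset.prod_ite_mem, Finset.univ_inter,
      Finset.prod_const]
  have hAl : A l = {0} := by
    have h3 : A l = if l = i then {a} else {0} := if_neg (Finset.notMem_erase l _)
    rw [h3, if_neg hli]
  have hAi : A i = {a} := by
    have h3 : A i = if i = i then {a} else {0} := if_neg fun h =>
      Finset.notMem_erase i S (Finset.mem_of_mem_erase h)
    rw [h3, if_pos rfl]
  have hAn : ∀ j, j ∉ S → A j = {0} := by
    intro j hj
    have h3 : A j = if j = i then {a} else {0} := if_neg fun h =>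
      hj (Finset.mem_of_mem_erase (Finset.mem_of_mem_erase h))
    rw [h3, if_neg fun h => hj (by rw [h]; exact hi)]
  have hsum : ∀ (y : U → ZMod 2) (b : ZMod 2), ∑ j, Function.update y l b j =
      b + ∑ j ∈ univ \ {l}, y j := fun y b => Finset.sum_update_of_mem (Finset.mem_univ l) y b
  have hsum' : ∀ y : U → ZMod 2, ∑ j, y j = y l + ∑ j ∈ univ \ {l}, y j := by
    intro y
    have h3 := hsum y (y l)
    rw [Function.update_eq_self] at h3
    exact h3
  rw [← hA]
  refine Finset.card_bij' (fun y _ => Function.update y l 0)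
    (fun y _ => Function.update y l (c + ∑ j, y j)) ?_ ?_ ?_ ?_
  · intro y hy
    obtain ⟨-, h3, h4, h5⟩ := Finset.mem_filter.mp hy
    rw [Fintype.mem_piFinset]
    intro j
    by_cases hjl : j = l
    · rw [hjl, hAl, Function.update_self]
      exact Finset.mem_singleton_self _
    · rw [Function.update_of_ne hjl]
      by_cases hjT : j ∈ (S.erase i).erase l
      · have h6 : A j = univ := if_pos hjT
        rw [h6]
        exact Finset.mem_univ _
      · by_cases hji : j = i
        · rw [hji, hAi, h4]
          exact Finset.mem_singleton_self _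
        · have hjS : j ∉ S := fun h => hjT (Finset.mem_erase.mpr ⟨hjl, Finset.mem_erase.mpr ⟨hji, h⟩⟩)
          rw [hAn j hjS, h3 j hjS]
          exact Finset.mem_singleton_self _
  · intro y hy
    rw [Fintype.mem_piFinset] at hy
    have hyl : y l = 0 := by
      have h3 := hy l
      rw [hAl] at h3
      exact Finset.mem_singleton.mp h3
    rw [Finset.mem_filter]
    refine ⟨Finset.mem_univ _, ?_, ?_, ?_⟩
    · intro j hj
      have hjl : j ≠ l := fun h => hj (by rw [h]; exact hlS)
      rw [Function.update_of_ne hjl]
      have h3 := hy j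
      rw [hAn j hj] at h3
      exact Finset.mem_singleton.mp h3
    · rw [Function.update_of_ne hli.symm]
      have h3 := hy i
      rw [hAi] at h3
      exact Finset.mem_singleton.mp h3
    · rw [hsum, hsum' y, hyl, zero_add]
      have h3 : ∀ s : ZMod 2, c + s + s = c := by
        intro s
        have : s + s = 0 := by
          revert s
          decide
        rw [add_assoc, this, add_zero]
      exact h3 _
  · intro y hy
    obtain ⟨-, h3, h4, h5⟩ := Finset.mem_filter.mp hy
    funext j
    by_cases hjl : j = l
    · rw [hjl, Function.update_self, hsum, zero_add]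
      rw [hsum' y] at h5
      have h6 : ∀ u s : ZMod 2, u + s + s = u := by decide
      rw [← h5]
      exact h6 _ _
    · rw [Function.update_of_ne hjl, Function.update_of_ne hjl]
  · intro y hy
    rw [Fintype.mem_piFinset] at hy
    have hyl : y l = 0 := by
      have h3 := hy l
      rw [hAl] at h3
      exact Finset.mem_singleton.mp h3
    funext j
    by_cases hjl : j = l
    · rw [hjl, Function.update_self, hyl]
    · rw [Function.update_of_ne hjl, Function.update_of_ne hjl]

theorem cfi_reg {U : Type} [Fintype U] {X : SimpleGraph U} {D : ℕ} (hD : 2 ≤ D)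
    (h : ∀ i, (univ.filter fun j => X.Adj i j).card = D) (c : U → ZMod 2) (v : CfiV X c) :
    ((cfi X c).neighborSet v).ncard = D * 2 ^ (D - 2) := by
  have h1 : (cfi X c).neighborSet v = ((univ.filter fun w => (cfi X c).Adj v w : Finset (CfiV X c)) :
      Set (CfiV X c)) := by
    ext w
    rw [Finset.mem_coe, Finset.mem_filter]
    exact ⟨fun h => ⟨Finset.mem_univ _, h⟩, fun h => h.2⟩
  rw [h1, Set.ncard_coe_finset, Finset.card_eq_sum_card_fiberwise (f := fun w : CfiV X c => w.1.1)
    (t := univ.filter fun j => X.Adj v.1.1 j) (fun w hw => by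
      rw [Finset.mem_coe, Finset.mem_filter] at hw ⊢
      exact ⟨Finset.mem_univ _, hw.2.1⟩)]
  have h2 : ∀ j ∈ univ.filter (fun j => X.Adj v.1.1 j),
      ((univ.filter fun w => (cfi X c).Adj v w : Finset (CfiV X c)).filter
        fun w => w.1.1 = j).card = 2 ^ (D - 2) := by
    intro j hj
    have hvj : X.Adj v.1.1 j := (Finset.mem_filter.mp hj).2
    have h3 := count_fun (univ.filter fun l => X.Adj j l) (by rw [h]; exact hD)
      (i := v.1.1) (Finset.mem_filter.mpr ⟨Finset.mem_univ _, hvj.symm⟩) (v.1.2 j) (c j)
    rw [h] at h3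
    rw [← h3]
    refine Finset.card_bij (fun w _ => w.1.2) ?_ ?_ ?_
    · intro w hw
      rw [Finset.mem_filter, Finset.mem_filter] at hw
      obtain ⟨⟨-, h4⟩, h5⟩ := hw
      rw [Finset.mem_filter]
      refine ⟨Finset.mem_univ _, ?_, ?_, ?_⟩
      · intro l hl
        refine w.2.1 l fun h6 => hl ?_
        rw [Finset.mem_filter, ← h5]
        exact ⟨Finset.mem_univ _, h6⟩
      · have h6 : v.1.2 w.1.1 = w.1.2 v.1.1 := h4.2
        rw [← h6, h5]
      · rw [w.2.2, h5]
    · intro w hw w' hw' he
      rw [Finset.mem_filter] at hw hw'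
      exact Subtype.ext (Prod.ext (hw.2.trans hw'.2.symm) he)
    · intro y hy
      obtain ⟨-, h4, h5, h6⟩ := Finset.mem_filter.mp hy
      let w : CfiV X c := ⟨(j, y), fun l hl => h4 l fun h7 => hl (Finset.mem_filter.mp h7).2, h6⟩
      have hw : (cfi X c).Adj v w := ⟨hvj, h5.symm⟩
      exact ⟨w, Finset.mem_filter.mpr ⟨Finset.mem_filter.mpr ⟨Finset.mem_univ _, hw⟩, rfl⟩, rfl⟩
  rw [Finset.sum_congr rfl h2, Finset.sum_const, h, smul_eq_mul]

end Pool.Agent.HomQ
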