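import Pool.Agent.HomQ.Def
import Pool.Agent.HomW.Res

/-!
# Pull-back and routing of homological copies (helper20)

`X` contains a subdivision of `B`: the vertex `i` of `B` is `x i`, the edge `e` is a walk with the edges `γ e`. The label of an
edge `ab` of `F` is pulled back along these walks and routed in `Γ` along the walk `ω a b` from `φ a` to `φ b`; `m a b u u'` is
the number (mod 2) of passages of this walk through the edge `uu'`. Every unordered pair `ab` is counted once (`ix a < ix b`).
`eqn`: `mult_sum` (the number of edges of a walk at a vertex is even, except for the two ends) and `pair_sum`.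
-/

set_option autoImplicit false

namespace Pool.Agent.HomQ

open Finset Classical Pool.Agent.HomV Pool.Agent.HomW

variable {U : Type} [Fintype U] {V : Type} [Fintype V] {X : SimpleGraph U} {Y : Finset U}
  {W : Type} [Fintype W] {U₀ : Type} [Fintype U₀]

/-- the sum along the walks -/
private noncomputable def pb (γ : Sym2 U₀ → List (Sym2 U)) (K : Ch U) (e : Sym2 U₀) : ZMod 2 :=
  ((γ e).map K).sum

private theorem pb_add (γ : Sym2 U₀ → List (Sym2 U)) (K L : Ch U) (e : Sym2 U₀) :
    pb γ (K + L) e = pb γ K e + pb γ L e := by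
  unfold pb
  induction γ e with
  | nil => simp
  | cons a l ih =>
    rw [List.map_cons, List.map_cons, List.map_cons, List.sum_cons, List.sum_cons, List.sum_cons, ih,
      Pi.add_apply]
    ring

private theorem pb_zero (γ : Sym2 U₀ → List (Sym2 U)) (e : Sym2 U₀) : pb γ (0 : Ch U) e = 0 := by
  unfold pb
  induction γ e with
  | nil => rfl
  | cons a l ih =>
    rw [List.map_cons, List.sum_cons, ih]
    rfl

private theorem pb_sum {ι : Type} (γ : Sym2 U₀ → List (Sym2 U)) (s : Finset ι) (K : ι → Ch U)
    (e : Sym2 U₀) : pb γ (∑ a ∈ s, K a) e = ∑ a ∈ s, pb γ (K a) e := by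
  induction s using Finset.induction_on with
  | empty => rw [Finset.sum_empty, Finset.sum_empty, pb_zero]
  | insert a s ha ih => rw [Finset.sum_insert ha, Finset.sum_insert ha, pb_add, ih]

private theorem pb_ne (γ : Sym2 U₀ → List (Sym2 U)) (K : Ch U) (e : Sym2 U₀) (h : pb γ K e ≠ 0) :
    ∃ e' ∈ γ e, K e' ≠ 0 := by
  by_contra hcon
  apply h
  unfold pb
  refine List.sum_eq_zero fun x hx => ?_
  obtain ⟨e', he', rfl⟩ := List.mem_map.mp hx
  by_contra h0
  exact hcon ⟨e', he', h0⟩

private theorem z2_self (a : ZMod 2) : a + a = 0 := by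
  revert a
  decide

/-- a cut telescopes along a walk -/
private theorem walk_sum (r : U → ZMod 2) {u v : U} (w : X.Walk u v) (h : ∀ x ∈ w.support, x ∈ Y) :
    (w.edges.map (dl X Y r)).sum = r u + r v := by
  induction w with
  | nil =>
    rw [SimpleGraph.Walk.edges_nil, List.map_nil, List.sum_nil, z2_self]
  | cons hadj w ih =>
    rename_i u v' v
    rw [SimpleGraph.Walk.edges_cons, List.map_cons, List.sum_cons, ih fun x hx => h x (by
      rw [SimpleGraph.Walk.support_cons]
      exact List.mem_cons_of_mem _ hx), dl_mk, if_pos ⟨hadj, h _ (by simp), h _ (by simp)⟩]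
    calc r u + r v' + (r v' + r v) = r u + r v + (r v' + r v') := by ring
      _ = r u + r v := by rw [z2_self, add_zero]

private theorem pb_dl {γ : Sym2 U₀ → List (Sym2 U)} {x : U₀ → U} {i j : U₀} (w : X.Walk (x i) (x j))
    (hw : w.edges.Perm (γ s(i, j))) (h : ∀ v ∈ w.support, v ∈ Y) (r : U → ZMod 2) :
    pb γ (dl X Y r) s(i, j) = r (x i) + r (x j) := by
  unfold pb
  rw [← walk_sum r w h]
  exact ((hw.map _).sum_eq).symm

/-- a weighted sum of stars is a cut -/
private theorem dl_push (f : V → U) (s : Finset V) (t : V → ZMod 2) :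
    dl X Y (fun i => ∑ a ∈ s, if f a = i then t a else 0) =
      ∑ a ∈ s, t a • star X Y (f a) := by
  funext e
  unfold dl
  rw [Finset.sum_apply]
  have h1 : ∀ i : U, (∑ a ∈ s, if f a = i then t a else 0) * star X Y i e =
      ∑ a ∈ s, if f a = i then t a * star X Y (f a) e else 0 := by
    intro i
    rw [Finset.sum_mul]
    refine Finset.sum_congr rfl fun a _ => ?_
    by_cases h : f a = i
    · rw [if_pos h, if_pos h, h]
    · rw [if_neg h, if_neg h, zero_mul]
  rw [Finset.sum_congr rfl fun i _ => h1 i, Finset.sum_comm]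
  refine Finset.sum_congr rfl fun a _ => ?_
  rw [Finset.sum_ite_eq Finset.univ (f a), if_pos (Finset.mem_univ _)]
  rfl

/-- an index of the vertices, to count every unordered pair once -/
private noncomputable def ix (a : V) : ℕ := (Fintype.equivFin V a).val

private theorem ix_inj {a b : V} (h : ix a = ix b) : a = b :=
  (Fintype.equivFin V).injective (Fin.ext h)

/-- the sum over the unordered pairs with one end in a set -/
private theorem pair_sum (K : V → V → ZMod 2) (hs : ∀ a b, K a b = K b a) (h0 : ∀ a, K a a = 0)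
    (P : V → Prop) :
    (∑ a, ∑ b, if ix a < ix b then ((if P a then 1 else 0) + (if P b then 1 else 0)) * K a b else 0) =
      ∑ a ∈ univ.filter P, ∑ b, K a b := by
  have h1 : (∑ a, ∑ b, if ix a < ix b then ((if P a then (1 : ZMod 2) else 0) +
      (if P b then 1 else 0)) * K a b else 0) =
      (∑ a, ∑ b, if ix a < ix b then (if P a then (1 : ZMod 2) else 0) * K a b else 0) +
      ∑ a, ∑ b, if ix b < ix a then (if P a then (1 : ZMod 2) else 0) * K a b else 0 := by
    have h2 : (∑ a : V, ∑ b : V, if ix b < ix a then (if P a then (1 : ZMod 2) else 0) * K a b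
        else 0) = ∑ a : V, ∑ b : V, if ix a < ix b then (if P b then (1 : ZMod 2) else 0) * K a b
        else 0 := by
      rw [Finset.sum_comm]
      refine Finset.sum_congr rfl fun a _ => Finset.sum_congr rfl fun b _ => ?_
      rw [hs b a]
    rw [h2, ← Finset.sum_add_distrib]
    refine Finset.sum_congr rfl fun a _ => ?_
    rw [← Finset.sum_add_distrib]
    refine Finset.sum_congr rfl fun b _ => ?_
    by_cases h : ix a < ix b
    · rw [if_pos h, if_pos h, if_pos h, add_mul]
    · rw [if_neg h, if_neg h, if_neg h, add_zero]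
  rw [h1, ← Finset.sum_add_distrib, Finset.sum_filter]
  refine Finset.sum_congr rfl fun a _ => ?_
  rw [← Finset.sum_add_distrib]
  by_cases hP : P a
  · simp only [if_pos hP, one_mul]
    refine Finset.sum_congr rfl fun b _ => ?_
    rcases lt_trichotomy (ix a) (ix b) with h | h | h
    · rw [if_pos h, if_neg (by omega), add_zero]
    · rw [if_neg (by omega), if_neg (by omega), add_zero, ix_inj h, h0]
    · rw [if_neg (by omega), if_pos h, zero_add]
  · simp only [if_neg hP, zero_mul, ite_self, add_zero, Finset.sum_const_zero]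

private theorem route_aux {F : SimpleGraph V} {B : SimpleGraph U₀} {Y₀ : Finset U₀} (H : HomX X Y F)
    {Γ : SimpleGraph W} (φ : V → W) (x : U₀ → U) (hx : ∀ i ∈ Y₀, x i ∈ Y)
    (γ : Sym2 U₀ → List (Sym2 U))
    (hγ : ∀ i ∈ Y₀, ∀ j ∈ Y₀, B.Adj i j → ∃ w : X.Walk (x i) (x j), w.edges.Perm (γ s(i, j)) ∧
      ∀ v ∈ w.support, v ∈ Y)
    (m : V → V → W → W → ZMod 2) (m_symm : ∀ a b u u', m a b u u' = m a b u' u)
    (m_adj : ∀ a b u u', m a b u u' ≠ 0 → Γ.Adj u u')
    (m_sum : ∀ a b, F.Adj a b → ∀ u, ∑ u', m a b u u' =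
      (if φ a = u then 1 else 0) + (if φ b = u then 1 else 0))
    (f₁ : W → U₀) (h1 : ∀ a, ∀ i ∈ Y₀, H.f a = x i → f₁ (φ a) = i)
    (h2 : ∀ a b u u', F.Adj a b → m a b u u' ≠ 0 → ∀ i ∈ Y₀, ∀ j ∈ Y₀, B.Adj i j →
      (∃ e ∈ γ s(i, j), H.f a ∈ e) → f₁ u = i ∨ f₁ u = j) :
    ∃ H' : HomX B Y₀ Γ, H'.f = f₁ := by
  have hst : ∀ (u u' : W) (e : Sym2 U₀),
      (∑ a, ∑ b, if ix a < ix b then m a b u u' * pb γ (H.y a b) e else 0) ≠ 0 →
      ∃ a b, F.Adj a b ∧ m a b u u' ≠ 0 ∧ pb γ (H.y a b) e ≠ 0 := by
    intro u u' e h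
    obtain ⟨a, _, h3⟩ := Finset.exists_ne_zero_of_sum_ne_zero h
    obtain ⟨b, _, h4⟩ := Finset.exists_ne_zero_of_sum_ne_zero h3
    by_cases hab : ix a < ix b
    · rw [if_pos hab] at h4
      have h5 := right_ne_zero_of_mul h4
      refine ⟨a, b, H.y_adj a b fun h0 => h5 ?_, left_ne_zero_of_mul h4, h5⟩
      rw [h0, pb_zero]
    · rw [if_neg hab] at h4
      exact absurd rfl h4
  refine ⟨{ f := f₁
            t := fun w => ∑ a ∈ univ.filter (fun a => φ a = w), if H.f a = x (f₁ w) then H.t a else 0
            y := fun u u' e => if e ∈ B.edgeSet ∧ ∀ j ∈ e, j ∈ Y₀ then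
              ∑ a, ∑ b, if ix a < ix b then m a b u u' * pb γ (H.y a b) e else 0 else 0
            y_symm := ?_
            y_adj := ?_
            y_star := ?_
            eqn := ?_
            total := ?_ }, rfl⟩
  · intro u u'
    funext e
    by_cases h : e ∈ B.edgeSet ∧ ∀ j ∈ e, j ∈ Y₀
    · rw [if_pos h, if_pos h]
      refine Finset.sum_congr rfl fun a _ => Finset.sum_congr rfl fun b _ => ?_
      rw [m_symm]
    · rw [if_neg h, if_neg h]
  · intro u u' hne
    obtain ⟨e, he⟩ := Function.ne_iff.mp hne
    by_cases h : e ∈ B.edgeSet ∧ ∀ j ∈ e, j ∈ Y₀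
    · rw [if_pos h] at he
      obtain ⟨a, b, _, h3, _⟩ := hst u u' e he
      exact m_adj a b u u' h3
    · rw [if_neg h] at he
      exact absurd rfl he
  · intro u u' e he
    beta_reduce at he
    by_cases h : e ∈ B.edgeSet ∧ ∀ j ∈ e, j ∈ Y₀
    · rw [if_pos h] at he
      obtain ⟨a, b, hab, h3, h3'⟩ := hst u u' e he
      obtain ⟨e', he', h4⟩ := pb_ne _ _ _ h3'
      have h5 := (H.y_star a b).mem e' h4
      refine star_ne.mpr ⟨h.1, ?_, h.2⟩
      induction e using Sym2.inductionOn with
      | hf i j =>
        rcases h2 a b u u' hab h3 i (h.2 i (Sym2.mem_mk_left i j)) j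
          (h.2 j (Sym2.mem_mk_right i j)) h.1 ⟨e', he', h5⟩ with h6 | h6
        · rw [h6]
          exact Sym2.mem_mk_left i j
        · rw [h6]
          exact Sym2.mem_mk_right i j
    · rw [if_neg h] at he
      exact absurd rfl he
  · intro w
    funext e
    rw [Finset.sum_apply, Pi.smul_apply, smul_eq_mul]
    by_cases h : e ∈ B.edgeSet ∧ ∀ j ∈ e, j ∈ Y₀
    · have e1 : (∑ w', if e ∈ B.edgeSet ∧ ∀ j ∈ e, j ∈ Y₀ then
              ∑ a, ∑ b, if ix a < ix b then m a b w w' * pb γ (H.y a b) e else 0 else 0) =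
          ∑ a, ∑ b, if ix a < ix b then ((if φ a = w then 1 else 0) +
            (if φ b = w then 1 else 0)) * pb γ (H.y a b) e else 0 := by
        have e2 : ∀ w', (if e ∈ B.edgeSet ∧ ∀ j ∈ e, j ∈ Y₀ then
              ∑ a, ∑ b, if ix a < ix b then m a b w w' * pb γ (H.y a b) e else 0 else 0) =
              ∑ a, ∑ b, if ix a < ix b then m a b w w' * pb γ (H.y a b) e else 0 :=
          fun w' => if_pos h
        rw [Finset.sum_congr rfl fun w' _ => e2 w', Finset.sum_comm]
        refine Finset.sum_congr rfl fun a _ => ?_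
        rw [Finset.sum_comm]
        refine Finset.sum_congr rfl fun b _ => ?_
        by_cases hab : ix a < ix b
        · rw [if_pos hab]
          rw [Finset.sum_congr rfl fun w' _ => if_pos hab, ← Finset.sum_mul]
          by_cases hF : F.Adj a b
          · rw [m_sum a b hF w]
          · have h3 : H.y a b = 0 := by
              by_contra h4
              exact hF (H.y_adj a b h4)
            rw [h3, pb_zero, mul_zero, mul_zero]
        · rw [if_neg hab]
          exact Finset.sum_eq_zero fun w' _ => if_neg hab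
      rw [e1, pair_sum (fun a b => pb γ (H.y a b) e) (fun a b => by rw [H.y_symm]) (fun a => by
        have h3 : H.y a a = 0 := by
          by_contra h4
          exact (H.y_adj a a h4).ne rfl
        rw [h3, pb_zero]) (fun a => φ a = w)]
      have e2 : ∀ a, (∑ b, pb γ (H.y a b) e) = pb γ (H.t a • star X Y (H.f a)) e := by
        intro a
        rw [← H.eqn a, pb_sum]
      rw [Finset.sum_congr rfl fun a _ => e2 a, ← pb_sum, ← dl_push]
      induction e using Sym2.inductionOn with
      | hf i j =>
        have hi := h.2 i (Sym2.mem_mk_left i j)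
        have hj := h.2 j (Sym2.mem_mk_right i j)
        have hij : B.Adj i j := h.1
        obtain ⟨q, hq1, hq2⟩ := hγ i hi j hj hij
        rw [pb_dl q hq1 hq2]
        have h3 : ∀ l ∈ Y₀, f₁ w ≠ l →
            (∑ a ∈ univ.filter (fun a => φ a = w), if H.f a = x l then H.t a else 0) = 0 := by
          intro l hl hne
          refine Finset.sum_eq_zero fun a ha => if_neg fun h4 => hne ?_
          rw [← (Finset.mem_filter.mp ha).2]
          exact h1 a l hl h4
        by_cases h4 : f₁ w = i
        · have h5 : f₁ w ≠ j := by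
            rw [h4]
            exact hij.ne
          have h6 : star B Y₀ (f₁ w) s(i, j) = 1 := by
            unfold HomV.star
            rw [if_pos ⟨h.1, by rw [h4]; exact Sym2.mem_mk_left i j, h.2⟩]
          rw [h6, mul_one, h3 j hj h5, add_zero, h4]
        · by_cases h5 : f₁ w = j
          · have h6 : star B Y₀ (f₁ w) s(i, j) = 1 := by
              unfold HomV.star
              rw [if_pos ⟨h.1, by rw [h5]; exact Sym2.mem_mk_right i j, h.2⟩]
            rw [h6, mul_one, h3 i hi h4, zero_add, h5]
          · have h6 : star B Y₀ (f₁ w) s(i, j) = 0 := by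
              unfold HomV.star
              rw [if_neg fun h' => ?_]
              rcases Sym2.mem_iff.mp h'.2.1 with h7 | h7
              · exact h4 h7
              · exact h5 h7
            rw [h6, mul_zero, h3 i hi h4, h3 j hj h5, add_zero]
    · have h6 : star B Y₀ (f₁ w) e = 0 := by
        unfold HomV.star
        rw [if_neg fun h' => h ⟨h'.1, h'.2.2⟩]
      rw [h6, mul_zero]
      refine Finset.sum_eq_zero fun w' _ => ?_
      rw [if_neg h]
  · intro i hi
    rw [← H.total (x i) (hx i hi), Finset.sum_filter, Finset.sum_filter,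
      ← Finset.sum_fiberwise univ φ fun a => if H.f a = x i then H.t a else 0]
    refine Finset.sum_congr rfl fun w _ => ?_
    by_cases h : f₁ w = i
    · rw [if_pos h, h]
    · rw [if_neg h]
      refine (Finset.sum_eq_zero fun a ha => if_neg fun h3 => h ?_).symm
      rw [← (Finset.mem_filter.mp ha).2]
      exact h1 a i hi h3

/-- the number (mod 2) of passages of a walk through an edge -/
private noncomputable def mult {Γ : SimpleGraph W} {p q : W} (w : Γ.Walk p q) (u u' : W) : ZMod 2 :=
  (w.edges.count s(u, u') : ZMod 2)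

private theorem edge_sum {Γ : SimpleGraph W} {p r : W} (h : Γ.Adj p r) (u : W) :
    (∑ u' : W, if s(p, r) = s(u, u') then (1 : ZMod 2) else 0) =
      (if p = u then 1 else 0) + (if r = u then 1 else 0) := by
  have hne := h.ne
  have h1 : ∀ u', (if s(p, r) = s(u, u') then (1 : ZMod 2) else 0) =
      (if p = u then (if r = u' then (1 : ZMod 2) else 0) else 0) +
      (if r = u then (if p = u' then (1 : ZMod 2) else 0) else 0) := by
    intro u'
    by_cases hp : p = u
    · have hr : r ≠ u := fun h' => hne (hp.trans h'.symm)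
      rw [if_pos hp, if_neg hr, add_zero]
      by_cases hr' : r = u'
      · rw [if_pos hr', if_pos (by rw [hp, hr'])]
      · rw [if_neg hr', if_neg]
        intro h'
        rcases Sym2.eq_iff.mp h' with ⟨_, h''⟩ | ⟨_, h''⟩
        · exact hr' h''
        · exact hr h''
    · rw [if_neg hp, zero_add]
      by_cases hr : r = u
      · rw [if_pos hr]
        by_cases hp' : p = u'
        · rw [if_pos hp', if_pos (by rw [hr, hp', Sym2.eq_swap])]
        · rw [if_neg hp', if_neg]
          intro h'
          rcases Sym2.eq_iff.mp h' with ⟨h'', _⟩ | ⟨h'', _⟩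
          · exact hp h''
          · exact hp' h''
      · rw [if_neg hr, if_neg]
        intro h'
        rcases Sym2.eq_iff.mp h' with ⟨h'', _⟩ | ⟨_, h''⟩
        · exact hp h''
        · exact hr h''
  rw [Finset.sum_congr rfl fun u' _ => h1 u', Finset.sum_add_distrib]
  by_cases hp : p = u
  · by_cases hr : r = u
    · exact absurd (hp.trans hr.symm) hne
    · simp [hp, hr]
  · by_cases hr : r = u
    · simp [hp, hr]
    · simp [hp, hr]

private theorem mult_sum {Γ : SimpleGraph W} {p q : W} (w : Γ.Walk p q) (u : W) :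
    ∑ u', mult w u u' = (if p = u then 1 else 0) + (if q = u then 1 else 0) := by
  induction w with
  | nil =>
    rw [z2_self]
    refine Finset.sum_eq_zero fun u' _ => ?_
    unfold mult
    simp
  | cons h w ih =>
    rename_i p r q
    have h1 : ∀ u', mult (SimpleGraph.Walk.cons h w) u u' =
        (if s(p, r) = s(u, u') then (1 : ZMod 2) else 0) + mult w u u' := by
      intro u'
      unfold mult
      rw [SimpleGraph.Walk.edges_cons, List.count_cons]
      by_cases h' : s(p, r) = s(u, u')
      · rw [if_pos h', if_pos (by simpa using h')]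
        push_cast
        ring
      · rw [if_neg h', if_neg (by simpa using h')]
        push_cast
        ring
    rw [Finset.sum_congr rfl fun u' _ => h1 u', Finset.sum_add_distrib, ih, edge_sum h]
    calc (if p = u then (1 : ZMod 2) else 0) + (if r = u then 1 else 0) +
        ((if r = u then 1 else 0) + (if q = u then 1 else 0)) =
        (if p = u then 1 else 0) + (if q = u then 1 else 0) +
        ((if r = u then 1 else 0) + (if r = u then 1 else 0)) := by ring
      _ = _ := by rw [z2_self, add_zero]

private theorem mult_mem {Γ : SimpleGraph W} {p q : W} (w : Γ.Walk p q) {u u' : W} (h : mult w u u' ≠ 0) :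
    s(u, u') ∈ w.edges := by
  by_contra h'
  apply h
  unfold mult
  rw [List.count_eq_zero_of_not_mem h']
  rfl

theorem route_homX {F : SimpleGraph V} {B : SimpleGraph U₀} {Y₀ : Finset U₀} (H : HomX X Y F)
    (Γ : SimpleGraph W) (φ : V → W) (x : U₀ → U) (hx : ∀ i ∈ Y₀, x i ∈ Y)
    (γ : Sym2 U₀ → List (Sym2 U))
    (hγ : ∀ i ∈ Y₀, ∀ j ∈ Y₀, B.Adj i j → ∃ w : X.Walk (x i) (x j), w.edges.Perm (γ s(i, j)) ∧
      ∀ v ∈ w.support, v ∈ Y)
    (ω : ∀ a b, F.Adj a b → Γ.Walk (φ a) (φ b))
    (f₁ : W → U₀) (h1 : ∀ a, ∀ i ∈ Y₀, H.f a = x i → f₁ (φ a) = i)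
    (h2 : ∀ a b (hab : F.Adj a b), ∀ u ∈ (ω a b hab).support, ∀ i ∈ Y₀, ∀ j ∈ Y₀, B.Adj i j →
      (∃ e ∈ γ s(i, j), H.f a ∈ e) → f₁ u = i ∨ f₁ u = j) :
    ∃ H' : HomX B Y₀ Γ, H'.f = f₁ := by
  refine route_aux H φ x hx γ hγ
    (fun a b u u' => if h : F.Adj a b then mult (ω a b h) u u' else 0) ?_ ?_ ?_ f₁ h1 ?_
  · intro a b u u'
    beta_reduce
    by_cases h : F.Adj a b
    · rw [dif_pos h, dif_pos h]
      unfold mult
      rw [Sym2.eq_swap]
    · rw [dif_neg h, dif_neg h]
  · intro a b u u' hne
    beta_reduce at hne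
    by_cases h : F.Adj a b
    · rw [dif_pos h] at hne
      exact (ω a b h).adj_of_mem_edges (mult_mem _ hne)
    · rw [dif_neg h] at hne
      exact absurd rfl hne
  · intro a b h u
    rw [← mult_sum (ω a b h) u]
    exact Finset.sum_congr rfl fun u' _ => dif_pos h
  · intro a b u u' h hne
    beta_reduce at hne
    rw [dif_pos h] at hne
    exact h2 a b h u ((ω a b h).fst_mem_support_of_mem_edges (mult_mem _ hne))

end Pool.Agent.HomQ
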