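import Pool.Agent.HomQ.Iso
import Pool.Agent.HomQ.Route

/-!
# Coarse graphs contain no homological copy (helper61, helper98)

As `no_copy_coarse` (HomZ/CoarseC, copy `near_map`, `exists_gamma`), with `route_homX`. `c u`: some `c : V` with
`Near Γ k (φ c) u` if there is one; `f₁ u = i₀ (H.f (c u))`. A vertex `u` of the walk `ω a b` (length at most `k`) has
`Near Γ k (φ a) u` (`takeUntil`), so `c u` exists, `Near Γ (2 * k) (φ (c u)) (φ a)` and `Near F (k * (2 * k) + k) (c u) a`.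
-/

set_option autoImplicit false

namespace Pool.Agent.HomQ

open Finset Classical Pool.Agent.HomV Pool.Agent.HomI Pool.Agent.HomW

variable {U : Type} [Fintype U] {V : Type} [Fintype V] {X : SimpleGraph U} {Y : Finset U}

private theorem near_map {F : SimpleGraph V} {f : V → U}
    (hf : ∀ a b, F.Adj a b → X.Adj (f a) (f b)) {d : ℕ} {a b : V} (h : Near F d a b) :
    Near X d (f a) (f b) := by
  obtain ⟨w, hw⟩ := h
  let φ : F →g X := ⟨f, fun {a b} hab => hf a b hab⟩
  exact ⟨w.map φ, by rw [SimpleGraph.Walk.length_map]; exact hw⟩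

private theorem near_mono {T : Type} {G : SimpleGraph T} {d d' : ℕ} (hd : d ≤ d') {u v : T}
    (h : Near G d u v) : Near G d' u v := by
  obtain ⟨w, hw⟩ := h
  exact ⟨w, hw.trans hd⟩

private theorem near_tri {T : Type} {G : SimpleGraph T} {d d' : ℕ} {u v x : T}
    (h : Near G d u v) (h' : Near G d' x v) : Near G (d + d') u x := by
  obtain ⟨w, hw⟩ := h
  obtain ⟨w', hw'⟩ := h'
  refine ⟨w.append w'.reverse, ?_⟩
  rw [SimpleGraph.Walk.length_append, SimpleGraph.Walk.length_reverse]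
  omega

/-- one walk for every unordered edge -/
private theorem exists_gamma {U₀ : Type} {B : SimpleGraph U₀} {Y₀ : Finset U₀} {z : U₀ → U}
    {R : U₀ → U₀ → Set U}
    (hw : ∀ i ∈ Y₀, ∀ j ∈ Y₀, B.Adj i j → ∃ w : X.Walk (z i) (z j),
      ∀ v ∈ w.support, v ∈ Y ∧ v ∈ R i j) :
    ∃ γ : Sym2 U₀ → List (Sym2 U), ∀ i ∈ Y₀, ∀ j ∈ Y₀, B.Adj i j →
      ∃ w : X.Walk (z i) (z j), w.edges.Perm (γ s(i, j)) ∧ (∀ v ∈ w.support, v ∈ Y) ∧
        ((∀ v ∈ w.support, v ∈ R i j) ∨ (∀ v ∈ w.support, v ∈ R j i)) := by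
  have h : ∀ e : Sym2 U₀, ∃ l : List (Sym2 U), ∀ i ∈ Y₀, ∀ j ∈ Y₀, B.Adj i j → s(i, j) = e →
      ∃ w : X.Walk (z i) (z j), w.edges.Perm l ∧ (∀ v ∈ w.support, v ∈ Y) ∧
        ((∀ v ∈ w.support, v ∈ R i j) ∨ (∀ v ∈ w.support, v ∈ R j i)) := by
    intro e
    induction e using Sym2.inductionOn with
    | hf i j =>
      by_cases hc : i ∈ Y₀ ∧ j ∈ Y₀ ∧ B.Adj i j
      · obtain ⟨w, h1⟩ := hw i hc.1 j hc.2.1 hc.2.2
        refine ⟨w.edges, ?_⟩
        intro i' hi' j' hj' hadj he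
        rcases Sym2.eq_iff.mp he with ⟨rfl, rfl⟩ | ⟨rfl, rfl⟩
        · exact ⟨w, List.Perm.refl _, fun v hv => (h1 v hv).1, Or.inl fun v hv => (h1 v hv).2⟩
        · refine ⟨w.reverse, ?_, ?_, Or.inr ?_⟩
          · rw [SimpleGraph.Walk.edges_reverse]
            exact List.reverse_perm _
          · intro v hv
            rw [SimpleGraph.Walk.support_reverse, List.mem_reverse] at hv
            exact (h1 v hv).1
          · intro v hv
            rw [SimpleGraph.Walk.support_reverse, List.mem_reverse] at hv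
            exact (h1 v hv).2
      · refine ⟨[], ?_⟩
        intro i' hi' j' hj' hadj he
        exfalso
        rcases Sym2.eq_iff.mp he with ⟨rfl, rfl⟩ | ⟨rfl, rfl⟩
        · exact hc ⟨hi', hj', hadj⟩
        · exact hc ⟨hj', hi', hadj.symm⟩
  choose γ hγ using h
  exact ⟨γ, fun i hi j hj hadj => hγ s(i, j) i hi j hj hadj rfl⟩

theorem no_copy_coarse {k Q : ℕ}
    (hQ : ∀ {U₀ : Type} [Fintype U₀] (B : SimpleGraph U₀) (Y₀ : Finset U₀), Good B Y₀ Q →
      ∀ {W : Type} [Fintype W] (F : SimpleGraph W), InClass k F → IsEmpty (HomX B Y₀ F))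
    (hF : Fat X Y Q (2 * k * k + k)) {F : SimpleGraph V} (hC : Coarse k F) (H : HomX X Y F)
    (hf : ∀ a b, F.Adj a b → X.Adj (H.f a) (H.f b)) : False := by
  obtain ⟨U₀, _, B, Y₀, z, R, hG, hz, hw, hball⟩ := hF
  obtain ⟨W, _, Γ, φ, hcls, hlip, hqi⟩ := hC
  choose i₀ hi₀ using hball
  obtain ⟨γ, hγ⟩ := exists_gamma hw
  obtain ⟨j₀, -⟩ := hG.ne
  -- the centre of a vertex of `Γ`
  have hc : ∀ u : W, ∃ g : U₀, ∀ a, Near Γ k (φ a) u → ∃ c, g = i₀ (H.f c) ∧
      Near F (2 * k * k + k) c a := by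
    intro u
    by_cases h : ∃ c, Near Γ k (φ c) u
    · obtain ⟨c, hc⟩ := h
      refine ⟨i₀ (H.f c), fun a ha => ⟨c, rfl, ?_⟩⟩
      have h1 := hqi (k + k) c a (near_tri hc ha)
      have h2 : k * (k + k) + k = 2 * k * k + k := by ring
      rw [h2] at h1
      exact h1
    · exact ⟨j₀, fun a ha => absurd ⟨a, ha⟩ h⟩
  choose f₁ hf₁ using hc
  choose ω hω using hlip
  obtain ⟨H', _⟩ := route_homX (B := B) (Y₀ := Y₀) H Γ φ z hz γ
    (fun i hi j hj hadj => by
      obtain ⟨w, h1, h2, _⟩ := hγ i hi j hj hadj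
      exact ⟨w, h1, h2⟩)
    ω f₁
    (fun a i hi h => by
      obtain ⟨c, h1, h2⟩ := hf₁ (φ a) a ⟨SimpleGraph.Walk.nil, by simp⟩
      have h3 := near_map hf h2
      rw [h] at h3
      rw [h1]
      exact ((hi₀ (H.f c)).1 i hi h3).symm)
    (fun a b hab u hu i hi j hj hadj h => by
      have h0 : Near Γ k (φ a) u := ⟨(ω a b hab).takeUntil u hu,
        (SimpleGraph.Walk.length_takeUntil_le_length _ hu).trans (hω a b hab)⟩
      obtain ⟨c, h1, h2⟩ := hf₁ u a h0
      have h3 := near_map hf h2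
      rw [h1]
      obtain ⟨w, hw1, _, hw3⟩ := hγ i hi j hj hadj
      obtain ⟨e, he, hae⟩ := h
      have he' : e ∈ w.edges := hw1.mem_iff.mpr he
      have h4 : H.f a ∈ w.support := by
        induction e using Sym2.inductionOn with
        | hf u v =>
          rcases Sym2.mem_iff.mp hae with h3 | h3
          · rw [h3]
            exact w.fst_mem_support_of_mem_edges he'
          · rw [h3]
            exact w.snd_mem_support_of_mem_edges he'
      rcases hw3 with hw3 | hw3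
      · exact (hi₀ (H.f c)).2 i hi j hj hadj _ (hw3 _ h4) h3
      · exact ((hi₀ (H.f c)).2 j hj i hi hadj.symm _ (hw3 _ h4) h3).symm)
  exact (hQ B Y₀ hG Γ hcls).false H'

end Pool.Agent.HomQ
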