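import Pool.Agent.HomZ.SubA
import Pool.Agent.HomZ.SubB
import Pool.Agent.HomQ.Iso
import Pool.Agent.HomQ.RGood
import Pool.Agent.HomQ.RDeg
import Pool.Agent.HomW.Grid

/-!
# The base graph (helper32)

The regular graph of cells over the subdivision of a good graph with the isoperimetric property.
-/

set_option autoImplicit false

namespace Pool.Agent.HomQ.R

open Finset Classical Pool.Agent.HomV Pool.Agent.HomW
open Pool.Agent.HomZ (ConnP good_connP good_walk SW sub base regS mem_regS_inl mem_regS_inr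
  sub_connP near_base)

variable {U₀ : Type} [Fintype U₀] {B : SimpleGraph U₀} {L p : ℕ} [NeZero p]
  {ix : SW B L → ZMod p}

/-- the live vertices over `Y₀` -/
noncomputable def lv (B : SimpleGraph U₀) (L p : ℕ) [NeZero p] (Y₀ : Finset U₀) :
    Finset (RU (SW B L) p) :=
  rcells p (regS B L Y₀)

/-- the branch vertices -/
def zz (B : SimpleGraph U₀) (L p : ℕ) (i : U₀) : RU (SW B L) p := (Sum.inl i, Sum.inl (0, 0), false)

omit [Fintype U₀] [NeZero p] in
theorem zz_inj : Function.Injective (zz B L p) := fun _ _ h => Sum.inl.inj (congrArg Prod.fst h)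

/-- the marked vertices -/
noncomputable def mk (B : SimpleGraph U₀) (L p : ℕ) [NeZero p] : Finset (RU (SW B L) p) :=
  univ.image (zz B L p)

theorem mem_mk {x : RU (SW B L) p} : x ∈ mk B L p ↔ ∃ i, zz B L p i = x := by
  unfold mk
  rw [Finset.mem_image]
  exact ⟨fun ⟨i, _, h⟩ => ⟨i, h⟩, fun ⟨i, h⟩ => ⟨i, Finset.mem_univ _, h⟩⟩

theorem zz_mem {Y₀ : Finset U₀} {i : U₀} : zz B L p i ∈ lv B L p Y₀ ↔ i ∈ Y₀ := by
  unfold lv
  rw [mem_rcells]
  exact mem_regS_inl

theorem regS_mono {Y₀ Y₁ : Finset U₀} (h : Y₀ ⊆ Y₁) {v : SW B L} (hv : v ∈ regS B L Y₀) :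
    v ∈ regS B L Y₁ := by
  rcases v with i | ⟨q, s⟩
  · exact mem_regS_inl.2 (h (mem_regS_inl.1 hv))
  · exact mem_regS_inr.2 ⟨h (mem_regS_inr.1 hv).1, h (mem_regS_inr.1 hv).2⟩

theorem base_mem {Y₀ : Finset U₀} {v : SW B L} (hv : v ∈ regS B L Y₀) : base v ∈ Y₀ := by
  rcases v with i | ⟨q, s⟩
  · exact mem_regS_inl.1 hv
  · exact (mem_regS_inr.1 hv).1

theorem lv_good {Q : ℕ} [Fact p.Prime] (hp : 5 * Q + 10 ≤ p) (hL : 0 < L)
    (hix : Function.Injective ix) {Y₀ : Finset U₀} (hne : Y₀.Nonempty)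
    (hc : ConnP B (Y₀ : Set U₀)) : Good (rg (sub B L) ix) (lv B L p Y₀) Q := by
  obtain ⟨i, hi⟩ := hne
  exact rg_good Q hp hix ⟨Sum.inl i, mem_regS_inl.2 hi⟩ (sub_connP hL hc)

theorem lv_fat {Q k : ℕ} (hQ : 0 < Q) [Fact p.Prime] (hp : 5 * Q + 10 ≤ p) (hL : 0 < L)
    (hk : 2 * (2 * k * k + k) ≤ L) (hix : Function.Injective ix) {Y₀ : Finset U₀} (hG : Good B Y₀ Q) :
    Fat (rg (sub B L) ix) (lv B L p Y₀) Q (2 * k * k + k) := by
  refine ⟨U₀, inferInstance, B, Y₀, zz B L p, fun i j => {v | v.1 ∈ regS B L {i, j}}, hG,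
    fun i hi => zz_mem.2 hi, ?_, ?_⟩
  · intro i hi j hj hij
    have hc : ConnP B (({i, j} : Finset U₀) : Set U₀) := by
      intro s hs
      have h1 := hs i (by simp) j (by simp) hij
      intro u hu v hv
      have hu' : u = i ∨ u = j := by simpa using hu
      have hv' : v = i ∨ v = j := by simpa using hv
      rcases hu' with rfl | rfl <;> rcases hv' with rfl | rfl
      · exact Iff.rfl
      · exact h1
      · exact h1.symm
      · exact Iff.rfl
    have hg := lv_good (ix := ix) hp hL hix ⟨i, by simp⟩ hc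
    obtain ⟨w, hw⟩ := good_walk hQ hg (u := zz B L p i) (v := zz B L p j)
      (zz_mem.2 (by simp)) (zz_mem.2 (by simp))
    refine ⟨w, fun v hv => ?_⟩
    have h1 := mem_rcells.1 (hw v hv)
    refine ⟨mem_rcells.2 (regS_mono ?_ h1), h1⟩
    intro x hx
    have hx' : x = i ∨ x = j := by simpa using hx
    rcases hx' with rfl | rfl
    · exact hi
    · exact hj
  · intro c
    obtain ⟨i₀, h1, h2⟩ := Pool.Agent.HomZ.ball hk c.1
    exact ⟨i₀, fun i _ h => h1 i (near_rg h), fun i _ j _ _ v hv h => h2 i j v.1 hv (near_rg h)⟩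

theorem lv_iso {Q k : ℕ} (hQ : 0 < Q) [Fact p.Prime] (hp : 5 * Q + 10 ≤ p) (hL : 0 < L)
    (hk : 2 * (2 * k * k + k) ≤ L) (hix : Function.Injective ix) :
    ∀ (m : ℕ) (Y₀ : Finset U₀), Pool.Agent.HomW.Iso B Q k m Y₀ →
      Pool.Agent.HomQ.Iso (rg (sub B L) ix) (mk B L p) Q k m (lv B L p Y₀) := by
  intro m
  induction m with
  | zero =>
    intro Y₀ h
    have hG : Good B Y₀ Q := h
    exact ⟨lv_good hp hL hix hG.ne (good_connP hQ hG), lv_fat hQ hp hL hk hix hG⟩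
  | succ m ih =>
    intro Y₀ h
    obtain ⟨hG, hT⟩ := h
    refine ⟨⟨lv_good hp hL hix hG.ne (good_connP hQ hG), lv_fat hQ hp hL hk hix hG⟩, ?_⟩
    intro T hTc
    obtain ⟨Y₀', hsub, hcard, hnear, hI⟩ := hT (T.image fun c => base c.1)
      (Finset.card_image_le.trans hTc)
    refine ⟨lv B L p Y₀', ?_, ?_, ?_, ih Y₀' hI⟩
    · intro x hx
      exact mem_rcells.2 (regS_mono hsub (mem_rcells.1 hx))
    · have e1 : ∀ s : Finset (RU (SW B L) p), (∀ x ∈ s, x ∈ lv B L p Y₀ ∧ x ∈ mk B L p ∧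
          x ∉ lv B L p Y₀') → s.card ≤ (Y₀ \ Y₀').card := by
        intro s hs
        refine (Finset.card_le_card (t := (Y₀ \ Y₀').image (zz B L p)) ?_).trans
          Finset.card_image_le
        intro x hx
        obtain ⟨hx1, hx2, hx3⟩ := hs x hx
        obtain ⟨i, rfl⟩ := mem_mk.1 hx2
        refine Finset.mem_image_of_mem _ ?_
        rw [Finset.mem_sdiff]
        exact ⟨zz_mem.1 hx1, fun h => hx3 (zz_mem.2 h)⟩
      have e2 : ∀ s : Finset (RU (SW B L) p), (∀ x, x ∈ lv B L p Y₀ → x ∈ mk B L p → x ∈ s) →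
          Y₀.card ≤ s.card := by
        intro s hs
        refine Finset.card_le_card_of_injOn (zz B L p) ?_ (fun a _ b _ h => zz_inj h)
        intro i hi
        exact Finset.mem_coe.2 (hs _ (zz_mem.2 (Finset.mem_coe.1 hi)) (mem_mk.2 ⟨i, rfl⟩))
      refine lt_of_le_of_lt (Nat.mul_le_mul_left 3 (e1 _ fun x hx => ?_))
        (lt_of_lt_of_le hcard (e2 _ fun x hx hx' => ?_))
      · simpa only [Finset.mem_filter] using hx
      · simpa only [Finset.mem_filter] using And.intro hx hx'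
    · intro c hc x hx h
      exact hnear _ (Finset.mem_image_of_mem _ hc) _ (base_mem (mem_rcells.1 hx))
        (near_base (near_rg h))

/-- the graph of `HomW/Grid`, which is bipartite -/
theorem exists_bip (Q k n : ℕ) :
    ∃ (U : Type) (_ : Fintype U) (X : SimpleGraph U), Pool.Agent.HomW.Iso X Q k n univ ∧ Bip X := by
  obtain ⟨p, hp, hpp⟩ := Nat.exists_infinite_primes (5 * Q + 15)
  have : Fact p.Prime := ⟨hpp⟩
  have : NeZero p := ⟨hpp.ne_zero⟩
  have : Fact (1 < 2 * (n * (k * 5 ^ k)) + 2) := ⟨by omega⟩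
  have : NeZero (2 * (n * (k * 5 ^ k)) + 2) := ⟨by omega⟩
  refine ⟨Pool.Agent.HomT.GU (2 * (n * (k * 5 ^ k)) + 2) p, inferInstance,
    Pool.Agent.HomT.gX (2 * (n * (k * 5 ^ k)) + 2) p, ?_, gX_bip (by omega)⟩
  have h := reg_iso (N := 2 * (n * (k * 5 ^ k)) + 2) Q p (by omega) k n rfl n ∅ ∅ (by simp)
    (by simp)
  have h1 : reg (2 * (n * (k * 5 ^ k)) + 2) p ∅ ∅ = univ :=
    Finset.eq_univ_iff_forall.2 fun x => mem_reg.2 (by simp)
  rwa [h1] at h

theorem exists_iso (Q k n : ℕ) (hQ : 0 < Q) :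
    ∃ (U : Type) (_ : Fintype U) (X : SimpleGraph U) (D : Finset U),
      Iso X D Q k n univ ∧ Bip X ∧ ∃ d, 2 ≤ d ∧ ∀ i, (univ.filter fun j => X.Adj i j).card = d := by
  obtain ⟨U₀, _, B, hB, hbip⟩ := exists_bip Q k n
  obtain ⟨p, hp, hpp⟩ := Nat.exists_infinite_primes
    (5 * Q + 10 + Fintype.card (SW B (2 * (2 * k * k + k) + 1)) + 1)
  have : Fact p.Prime := ⟨hpp⟩
  have : NeZero p := ⟨hpp.ne_zero⟩
  have hix : Function.Injective
      (fun w : SW B (2 * (2 * k * k + k) + 1) => ((Fintype.equivFin (SW B (2 * (2 * k * k + k) + 1)) w : ℕ) : ZMod p)) := by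
    intro a b h
    have h' : (((Fintype.equivFin (SW B (2 * (2 * k * k + k) + 1)) a : ℕ)) : ZMod p) =
        ((Fintype.equivFin (SW B (2 * (2 * k * k + k) + 1)) b : ℕ) : ZMod p) := h
    have h1 := (Fintype.equivFin (SW B (2 * (2 * k * k + k) + 1)) a).2
    have h2 := (Fintype.equivFin (SW B (2 * (2 * k * k + k) + 1)) b).2
    rw [ZMod.natCast_eq_natCast_iff', Nat.mod_eq_of_lt (by omega), Nat.mod_eq_of_lt (by omega)]
      at h'
    exact (Fintype.equivFin (SW B (2 * (2 * k * k + k) + 1))).injective (Fin.ext h')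
  have h := lv_iso (L := 2 * (2 * k * k + k) + 1) hQ (by omega) (by omega) (by omega) hix n univ hB
  have h1 : lv B (2 * (2 * k * k + k) + 1) p univ = univ := by
    refine Finset.eq_univ_iff_forall.2 fun x => mem_rcells.2 ?_
    rcases x with ⟨i | ⟨q, s⟩, a, e⟩
    · exact mem_regS_inl.2 (Finset.mem_univ _)
    · exact mem_regS_inr.2 ⟨Finset.mem_univ _, Finset.mem_univ _⟩
  rw [h1] at h
  exact ⟨RU (SW B (2 * (2 * k * k + k) + 1)) p, inferInstance, _, _, h,
    rg_bip (sub_bip hbip), p + 1, by omega, fun a => rg_deg hix a⟩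

end Pool.Agent.HomQ.R
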