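import Pool.Agent.HomW.Def

/-!
# The coarse classes

Graphs with a quasi-isometric embedding in a graph of the class `InClass k`, and their closure under
gluing and thin hierarchies.
-/

set_option autoImplicit false

namespace Pool.Agent.HomQ

open Pool.Agent.HomV Pool.Agent.HomI Pool.Agent.HomW

/-- `F` has a quasi-isometric embedding `φ` (with constant `k`) in a finite graph `Γ` which is
obtained by clique sums of order at most `k` from `k`-nearly embeddable graphs: adjacent vertices
of `F` have images at distance at most `k`, and vertices of `F` whose images have distance at most
`n` have distance at most `k * n + k` -/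
def Coarse (k : ℕ) {V : Type} (F : SimpleGraph V) : Prop :=
  ∃ (W : Type) (_ : Fintype W) (Γ : SimpleGraph W) (φ : V → W), InClass k Γ ∧
    (∀ a b, F.Adj a b → Near Γ k (φ a) (φ b)) ∧
    ∀ n a b, Near Γ n (φ a) (φ b) → Near F (k * n + k) a b

/-- The class `M k 0` is the closure under gluing along complete subgraphs of the graphs with the
property `Coarse k` and of the graphs without an immersion of the complete graph with `k` vertices.
The class `M k (n + 1)` is the closure under gluing along complete subgraphs of the graphs whose
vertex set has a hierarchy of thin cuts down to parts which induce graphs in `M k n`. -/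
def M {V : Type} (k : ℕ) : ℕ → SimpleGraph V → Prop
  | 0, F => Glue (fun F => Coarse k F ∨ IsEmpty (CliqueImm k F)) F
  | n + 1, F => Glue (fun F => Dec (M k n) k F Set.univ) F

end Pool.Agent.HomQ
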