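import Mathlib

/-!
# Parity of the edges of a walk, sums over unordered pairs (helper27)
-/

set_option autoImplicit false

namespace Pool.Agent.HomQ

open Finset Classical

private theorem edge_par {W : Type} [Fintype W] {u v : W} (huv : u ≠ v) (x : W) :
    ∑ y, (if s(u, v) = s(x, y) then (1 : ZMod 2) else 0) =
      (if u = x then 1 else 0) + (if v = x then 1 else 0) := by
  have h1 : ∀ y, (if s(u, v) = s(x, y) then (1 : ZMod 2) else 0) =
      (if v = y then (if u = x then 1 else 0) else 0) +
        (if u = y then (if v = x then 1 else 0) else 0) := by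
    intro y
    by_cases h1 : u = x
    · subst h1
      have h2 : ¬ (v = u) := fun h => huv h.symm
      rw [if_pos rfl, if_neg h2, ite_self, add_zero]
      refine if_congr ?_ rfl rfl
      rw [Sym2.eq_iff]
      exact ⟨fun h => h.elim (fun h => h.2) fun h => absurd h.2 h2, fun h => Or.inl ⟨rfl, h⟩⟩
    · rw [if_neg h1, ite_self, zero_add]
      by_cases h2 : v = x
      · subst h2
        rw [if_pos rfl]
        refine if_congr ?_ rfl rfl
        rw [Sym2.eq_iff]
        exact ⟨fun h => h.elim (fun h => absurd h.1 h1) fun h => h.1, fun h => Or.inr ⟨h, rfl⟩⟩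
      · rw [if_neg h2, ite_self, if_neg]
        intro h
        rcases Sym2.eq_iff.mp h with h | h
        · exact h1 h.1
        · exact h2 h.2
  rw [Finset.sum_congr rfl fun y _ => h1 y, Finset.sum_add_distrib, Finset.sum_ite_eq,
    Finset.sum_ite_eq, if_pos (Finset.mem_univ _), if_pos (Finset.mem_univ _)]

/-- the number of edges of a walk at a vertex is even, except for the two ends -/
theorem walk_par {W : Type} [Fintype W] {Γ : SimpleGraph W} {u v : W} (w : Γ.Walk u v) (x : W) :
    ∑ y, (w.edges.count s(x, y) : ZMod 2) =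
      (if u = x then 1 else 0) + (if v = x then 1 else 0) := by
  induction w with
  | nil =>
    rw [CharTwo.add_self_eq_zero]
    refine Finset.sum_eq_zero fun y _ => ?_
    simp
  | @cons a b c h p ih =>
    have h1 : ∀ y, (((SimpleGraph.Walk.cons h p).edges.count s(x, y) : ℕ) : ZMod 2) =
        ((p.edges.count s(x, y) : ℕ) : ZMod 2) + (if s(a, b) = s(x, y) then (1 : ZMod 2) else 0) := by
      intro y
      rw [SimpleGraph.Walk.edges_cons, List.count_cons, Nat.cast_add]
      congr 1
      by_cases h2 : s(a, b) = s(x, y)
      · rw [if_pos h2, if_pos (beq_iff_eq.mpr h2), Nat.cast_one]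
      · rw [if_neg h2, if_neg (fun h3 => h2 (beq_iff_eq.mp h3)), Nat.cast_zero]
    rw [Finset.sum_congr rfl fun y _ => h1 y, Finset.sum_add_distrib, ih, edge_par h.ne]
    have h2 : ∀ p q r : ZMod 2, p + q + (r + p) = r + q := by decide
    exact h2 _ _ _

/-- a sum over ordered pairs as a sum over unordered pairs; `ν` orders the vertices -/
theorem sum_pairs {V : Type} [Fintype V] (ν : V → ℕ) (hν : Function.Injective ν)
    (g : V → V → ZMod 2) (h0 : ∀ a, g a a = 0) :
    ∑ a, ∑ b, g a b = ∑ a, ∑ b, if ν a < ν b then g a b + g b a else 0 := by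
  have h1 : ∀ a b, g a b = (if ν a < ν b then g a b else 0) + (if ν b < ν a then g a b else 0) := by
    intro a b
    rcases lt_trichotomy (ν a) (ν b) with h | h | h
    · rw [if_pos h, if_neg (by omega), add_zero]
    · have h2 : a = b := hν h
      subst h2
      rw [h0, if_neg (by omega), add_zero]
    · rw [if_neg (by omega), if_pos h, zero_add]
  have h2 : ∀ a b, (if ν a < ν b then g a b + g b a else 0) =
      (if ν a < ν b then g a b else 0) + (if ν a < ν b then g b a else 0) := by
    intro a b
    split_ifs
    · rfl
    · rw [add_zero]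
  rw [Finset.sum_congr rfl fun a _ => Finset.sum_congr rfl fun b _ => h1 a b,
    Finset.sum_congr rfl fun a _ => Finset.sum_congr rfl fun b _ => h2 a b]
  rw [Finset.sum_congr rfl fun a _ => Finset.sum_add_distrib, Finset.sum_add_distrib,
    Finset.sum_congr rfl fun a _ => Finset.sum_add_distrib, Finset.sum_add_distrib]
  congr 1
  rw [Finset.sum_comm]

end Pool.Agent.HomQ
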