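import Pool.Agent.HomZ.Cell
import Pool.Agent.HomQ.Bip

/-!
# Regular graphs of cells

Two copies of the graph of cells; the incidence relation of the second copy is shifted, and the two
copies of every vertex without an edge to another cell are joined.
-/

set_option autoImplicit false

namespace Pool.Agent.HomQ

open Finset Classical Pool.Agent.HomV Pool.Agent.HomW
open Pool.Agent.HomZ (CEx ConnP)

/-- the shift of the points in the second copy -/
def tr {p : ℕ} (e : Bool) : AffU p → AffU p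
  | Sum.inl P => Sum.inl (P.1, P.2 - if e then 1 else 0)
  | Sum.inr l => Sum.inr l

/-- the vertex `a` of the cell `u` has an edge to another cell -/
def Pt {W : Type} (Γ : SimpleGraph W) {p : ℕ} (ix : W → ZMod p) (u : W) (a : AffU p) : Prop :=
  ∃ (v : W) (x : ZMod p), Γ.Adj u v ∧ a = Sum.inl (x, ix v)

/-- the vertices -/
abbrev RU (W : Type) (p : ℕ) : Type := W × AffU p × Bool

/-- the edges in a cell -/
def RInt {W : Type} {p : ℕ} (a b : RU W p) : Prop :=
  a.1 = b.1 ∧ a.2.2 = b.2.2 ∧ (affX p).Adj (tr a.2.2 a.2.1) (tr b.2.2 b.2.1)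

/-- the edges between different cells -/
def RExt {W : Type} (Γ : SimpleGraph W) {p : ℕ} (ix : W → ZMod p) (a b : RU W p) : Prop :=
  a.2.2 = b.2.2 ∧ CEx Γ ix (a.1, a.2.1) (b.1, b.2.1)

/-- the edges between the two copies -/
def RVer {W : Type} (Γ : SimpleGraph W) {p : ℕ} (ix : W → ZMod p) (a b : RU W p) : Prop :=
  a.1 = b.1 ∧ a.2.1 = b.2.1 ∧ a.2.2 ≠ b.2.2 ∧ ¬ Pt Γ ix a.1 a.2.1

/-- the graph -/
def rg {W : Type} (Γ : SimpleGraph W) {p : ℕ} (ix : W → ZMod p) : SimpleGraph (RU W p) where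
  Adj a b := RInt a b ∨ RExt Γ ix a b ∨ RVer Γ ix a b
  symm := ⟨by
    rintro a b (h | h | h)
    · exact Or.inl ⟨h.1.symm, h.2.1.symm, h.2.2.symm⟩
    · exact Or.inr (Or.inl ⟨h.1.symm, Pool.Agent.HomZ.CEx.symm h.2⟩)
    · refine Or.inr (Or.inr ⟨h.1.symm, h.2.1.symm, h.2.2.1.symm, ?_⟩)
      rw [← h.1, ← h.2.1]
      exact h.2.2.2⟩
  loopless := ⟨by
    rintro a (h | h | h)
    · exact h.2.2.ne rfl
    · exact h.2.ne rfl
    · exact h.2.2.1 rfl⟩

variable {W : Type} [Fintype W] {Γ : SimpleGraph W} {p : ℕ} [NeZero p] {ix : W → ZMod p}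

/-- the cells over `Y` -/
noncomputable def rcells (p : ℕ) [NeZero p] (Y : Finset W) : Finset (RU W p) :=
  univ.filter fun a => a.1 ∈ Y

theorem mem_rcells {Y : Finset W} {a : RU W p} : a ∈ rcells p Y ↔ a.1 ∈ Y := by
  unfold rcells
  rw [Finset.mem_filter]
  exact ⟨fun h => h.2, fun h => ⟨Finset.mem_univ _, h⟩⟩

omit [Fintype W] [NeZero p] in
theorem near_rg {d : ℕ} {a b : RU W p} (h : Near (rg Γ ix) d a b) : Near Γ d a.1 b.1 := by
  obtain ⟨w, hw⟩ := h
  induction w generalizing d with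
  | nil => exact ⟨SimpleGraph.Walk.nil, by simp⟩
  | cons h w ih =>
    rw [SimpleGraph.Walk.length_cons] at hw
    obtain ⟨w', hw'⟩ := ih (d := d - 1) (by omega)
    rcases h with h | h | h
    · rw [h.1]
      exact ⟨w', by omega⟩
    · exact ⟨SimpleGraph.Walk.cons h.2.1 w', by rw [SimpleGraph.Walk.length_cons]; omega⟩
    · rw [h.1]
      exact ⟨w', by omega⟩

omit [Fintype W] [NeZero p] in
theorem rg_bip (h : Bip Γ) : Bip (rg Γ ix) := by
  obtain ⟨χ, hχ⟩ := h
  have htr : ∀ (e : Bool) (a : AffU p), tp (tr e a) = tp a := by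
    rintro e (a | a) <;> rfl
  refine ⟨fun a => χ a.1 + tp a.2.1 + (if a.2.2 then 1 else 0), ?_⟩
  rintro ⟨u, a, e⟩ ⟨v, b, e'⟩ (h | h | h)
  · obtain ⟨h1, h2, h3⟩ := h
    have h1' : u = v := h1
    have h2' : e = e' := h2
    subst h1' h2'
    have h4 := tp_ne h3
    rw [htr, htr] at h4
    exact fun h => h4 (add_left_cancel (add_right_cancel h))
  · obtain ⟨h1, h2, x, h3, h4⟩ := h
    have h1' : e = e' := h1
    have h3' : a = Sum.inl (x, ix v) := h3
    have h4' : b = Sum.inl (x, ix u) := h4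
    subst h1' h3' h4'
    exact fun h => hχ _ _ h2 (add_right_cancel (add_right_cancel h))
  · obtain ⟨h1, h2, h3, -⟩ := h
    have h1' : u = v := h1
    have h2' : a = b := h2
    subst h1' h2'
    have h3' : e ≠ e' := h3
    intro h
    have h4 : (if e then (1 : ZMod 2) else 0) = if e' then 1 else 0 := add_left_cancel h
    rcases e with _ | _ <;> rcases e' with _ | _
    · exact h3' rfl
    · exact absurd h4 (by simp)
    · exact absurd h4 (by simp)
    · exact h3' rfl

end Pool.Agent.HomQ
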